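import Pool.Agent.LocE.Pad
import Pool.Agent.NegLim.NPLang
import Pool.Agent.NegLim.NPMain

/-!
# The language: definition and decidability
-/

namespace Pool.Agent.LocE

open Finset Pool.Agent.PolyTime Pool.Agent.NegLim Pool.Agent.NegLim.Lang Pool.Agent.NegLim.NPL

/-- The selector `k` reads the variable `p` whose binary digits are pointed at by the address
variables of `k`. -/
def SV (S n l : ℕ) (bit : ℕ → Bool) (k : ℕ) : Prop :=
  ∃ p < n, bit p = true ∧ ∀ t < l, bit ((k * l + t) * 2 + dig 2 S p t) = true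

/-- For some polynomial with `c` coefficients modulo `q` all selectors `k + i q + P(i)`, `i < N`,
have the value `true`. -/
def GAcc (c N q S n l k : ℕ) (bit : ℕ → Bool) : Prop :=
  ∃ u < S, ∀ i < N, ∃ s < S, dig q S s 0 = 0 ∧
    (∀ j < c, dig q S s (j + 1) = (dig q S s j * i + dig q S u j) % q) ∧
    SV S n l bit (k + (i * q + dig q S s c))

lemma gacc_iff_acc (c N q S n l k : ℕ) (bit : ℕ → Bool) [DecidablePred fun v => SV S n l bit (k + v)] :
    GAcc c N q S n l k bit ↔ Lang.Acc c N q S (fun v => decide (SV S n l bit (k + v))) := by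
  unfold GAcc Lang.Acc
  simp only [decide_eq_true_eq]

/-- The parameters: block length `N q`, with `R` the `B`-th root of the length. -/
noncomputable def pR (B n : ℕ) : ℕ := rt B n

noncomputable def pq (a B n : ℕ) : ℕ := gp (2 * rt B n ^ (a + 1))

/-- The number of blocks is `2 pr`. -/
noncomputable def pr (a B n : ℕ) : ℕ := n / (4 * (rt B n ^ (a + 1) * pq a B n) * lgc n)

/-- The language, on padded inputs. -/
def PLangL (a B : ℕ) (y : List Bool) : Prop :=
  ∃ h < 2 * pr a B (wlen y), GAcc (2 * rt B (wlen y) ^ a) (rt B (wlen y) ^ (a + 1))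
    (pq a B (wlen y)) y.length (wlen y) (lgc (wlen y))
    (h * (rt B (wlen y) ^ (a + 1) * pq a B (wlen y))) (wbit y)

section

variable {α : Type} [Ctx α]

lemma pd_sv {K : List Bool → α → ℕ} (hK : PF K) :
    PD (fun y a => SV y.length (wlen y) (lgc (wlen y)) (wbit y) (K y a)) := by
  have hl : PF (fun y (r : (α × ℕ) × ℕ) => lgc (wlen y)) := pf_lgc pf_wlen
  have hk : PF (fun y (r : (α × ℕ) × ℕ) => K y r.1.1) := hK.fst.fst
  have hp : PF (fun (_ : List Bool) (r : (α × ℕ) × ℕ) => r.1.2) := PF.snd.fst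
  have h1 : PD (fun y (r : (α × ℕ) × ℕ) =>
      wbit y ((K y r.1.1 * lgc (wlen y) + r.2) * 2 + dig 2 y.length r.1.2 r.2) = true) :=
    pd_wbit ((((hk.mul hl).add PF.snd).mul (PF.const 2)).add
      (pf_dig (PF.const 2) PF.len hp PF.snd))
  have h2 := PD.forall_lt (B := fun y (_ : α × ℕ) => lgc (wlen y)) (pf_lgc pf_wlen) h1
  have h3 : PD (fun y (r : α × ℕ) => wbit y r.2 = true) := pd_wbit PF.snd
  exact PD.exists_lt (B := fun y (_ : α) => wlen y)
    (P := fun y (r : α × ℕ) => wbit y r.2 = true ∧ ∀ t < lgc (wlen y),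
      wbit y ((K y r.1 * lgc (wlen y) + t) * 2 + dig 2 y.length r.2 t) = true)
    pf_wlen (h3.and h2)

lemma pd_gacc {C N Q K : List Bool → α → ℕ} (hC : PF C) (hN : PF N) (hQ : PF Q) (hK : PF K) :
    PD (fun y a => GAcc (C y a) (N y a) (Q y a) y.length (wlen y) (lgc (wlen y)) (K y a)
      (wbit y)) := by
  have hu : PF (fun (_ : List Bool) (r : ((α × ℕ) × ℕ) × ℕ) => r.1.1.2) := PF.snd.fst.fst
  have hi : PF (fun (_ : List Bool) (r : ((α × ℕ) × ℕ) × ℕ) => r.1.2) := PF.snd.fst
  have hs : PF (fun (_ : List Bool) (r : ((α × ℕ) × ℕ) × ℕ) => r.2) := PF.snd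
  have hQ3 : PF (fun y (r : ((α × ℕ) × ℕ) × ℕ) => Q y r.1.1.1) := hQ.fst.fst.fst
  have hS3 : PF (fun (y : List Bool) (r : ((α × ℕ) × ℕ) × ℕ) => y.length) := PF.len
  have hC3 : PF (fun y (r : ((α × ℕ) × ℕ) × ℕ) => C y r.1.1.1) := hC.fst.fst.fst
  have hK3 : PF (fun y (r : ((α × ℕ) × ℕ) × ℕ) => K y r.1.1.1) := hK.fst.fst.fst
  have c1 : PD (fun y (r : ((α × ℕ) × ℕ) × ℕ) => dig (Q y r.1.1.1) y.length r.2 0 = 0) :=
    PD.eq (pf_dig hQ3 hS3 hs (PF.const 0)) (PF.const 0)
  have c2 : PD (fun y (r : ((α × ℕ) × ℕ) × ℕ) => ∀ j < C y r.1.1.1,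
      dig (Q y r.1.1.1) y.length r.2 (j + 1)
        = (dig (Q y r.1.1.1) y.length r.2 j * r.1.2
            + dig (Q y r.1.1.1) y.length r.1.1.2 j) % Q y r.1.1.1) :=
    PD.forall_lt (P := fun y (t : (((α × ℕ) × ℕ) × ℕ) × ℕ) =>
      dig (Q y t.1.1.1.1) y.length t.1.2 (t.2 + 1)
        = (dig (Q y t.1.1.1.1) y.length t.1.2 t.2 * t.1.1.2
            + dig (Q y t.1.1.1.1) y.length t.1.1.1.2 t.2) % Q y t.1.1.1.1) hC3
      (PD.eq (pf_dig hQ3.fst hS3.fst hs.fst (PF.snd.add (PF.const 1)))
        ((((pf_dig hQ3.fst hS3.fst hs.fst PF.snd).mul hi.fst).add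
          (pf_dig hQ3.fst hS3.fst hu.fst PF.snd)).mod hQ3.fst))
  have c3 : PD (fun y (r : ((α × ℕ) × ℕ) × ℕ) =>
      SV y.length (wlen y) (lgc (wlen y)) (wbit y)
        (K y r.1.1.1 + (r.1.2 * Q y r.1.1.1 + dig (Q y r.1.1.1) y.length r.2 (C y r.1.1.1)))) :=
    pd_sv (hK3.add ((hi.mul hQ3).add (pf_dig hQ3 hS3 hs hC3)))
  have d1 := PD.exists_lt (B := fun y (r : (α × ℕ) × ℕ) => y.length)
    (P := fun y (r : ((α × ℕ) × ℕ) × ℕ) => dig (Q y r.1.1.1) y.length r.2 0 = 0 ∧
      (∀ j < C y r.1.1.1, dig (Q y r.1.1.1) y.length r.2 (j + 1)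
        = (dig (Q y r.1.1.1) y.length r.2 j * r.1.2
            + dig (Q y r.1.1.1) y.length r.1.1.2 j) % Q y r.1.1.1) ∧
      SV y.length (wlen y) (lgc (wlen y)) (wbit y)
        (K y r.1.1.1 + (r.1.2 * Q y r.1.1.1 + dig (Q y r.1.1.1) y.length r.2 (C y r.1.1.1))))
    PF.len (c1.and (c2.and c3))
  have d2 := PD.forall_lt (B := fun y (r : α × ℕ) => N y r.1) hN.fst d1
  have d3 := PD.exists_lt (B := fun (y : List Bool) (r : α) => y.length) PF.len d2
  exact d3

theorem pd_plangL (a B : ℕ) : PD (fun y (_ : α) => PLangL a B y) := by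
  have hr : ∀ {β : Type} [Ctx β], PF (fun y (_ : β) => rt B (wlen y)) := fun {β} _ =>
    pf_rt B pf_wlen
  have hq : ∀ {β : Type} [Ctx β], PF (fun y (_ : β) => pq a B (wlen y)) := fun {β} _ =>
    pf_gp ((PF.const 2).mul (hr.pow (a + 1)))
  have hpr : PF (fun y (_ : α) => pr a B (wlen y)) :=
    pf_wlen.div (((PF.const 4).mul ((hr.pow (a + 1)).mul hq)).mul (pf_lgc pf_wlen))
  exact PD.exists_lt (B := fun y (_ : α) => 2 * pr a B (wlen y))
    (P := fun y (r : α × ℕ) => GAcc (2 * rt B (wlen y) ^ a) (rt B (wlen y) ^ (a + 1))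
      (pq a B (wlen y)) y.length (wlen y) (lgc (wlen y))
      (r.2 * (rt B (wlen y) ^ (a + 1) * pq a B (wlen y))) (wbit y))
    ((PF.const 2).mul hpr)
    (pd_gacc ((PF.const 2).mul (hr.pow a)) (hr.pow (a + 1)) hq
      (PF.snd.mul ((hr.pow (a + 1)).mul hq)))

end

open Classical in
theorem plangL_polyTime (a B : ℕ) : Nonempty (Turing.TM2ComputableInPolyTime
    (id : List Bool → List Bool) (id : List Bool → List Bool)
    (fun y => [decide (PLangL a B y)])) := by
  apply PFBits.polyTime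
  refine ⟨fun _ => 1, fun w _ => if PLangL a B w then 1 else 0, PF.const 1, ?_, ?_⟩
  · exact PF.ite (P := fun w (_ : Unit × ℕ) => PLangL a B w) (pd_plangL a B) (PF.const 1)
      (PF.const 0)
  · intro w
    by_cases h : PLangL a B w <;> simp [h]

open Classical in
/-- The language. -/
noncomputable def langL (a B d : ℕ) (x : List Bool) : Bool :=
  decide (PLangL a B (padW (x.length / d) x))

theorem langL_time (a B : ℕ) : ∃ d : ℕ, 1 ≤ d ∧ ∃ c : ℕ,
    DecidableInTime (langL a B d) (fun n => c * 2 ^ n) := by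
  classical
  obtain ⟨d, hd, c, hc⟩ := decidable_of_padded (fun y => decide (PLangL a B y)) (by
    have := plangL_polyTime a B
    convert this)
  refine ⟨d, hd, c, ?_⟩
  convert hc using 2
  unfold langL
  congr

open Classical in
lemma langL_eq_true_iff (a B d : ℕ) (x : List Bool) :
    langL a B d x = true ↔ PLangL a B (padW (x.length / d) x) := by
  unfold langL
  exact decide_eq_true_iff

/-! ### Meaning -/

lemma lead_padW (m : ℕ) (x : List Bool) : lead (padW m x) = 2 ^ m := by
  classical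
  unfold lead
  have h : (range (padW m x).length).filter (fun i => ∀ j < i + 1, (padW m x).getD j false = true)
      = range (2 ^ m) := by
    ext i
    rw [mem_filter, mem_range, mem_range]
    have hlen : (padW m x).length = 2 ^ m + (x.length + 1) := by
      unfold padW; simp
    constructor
    · rintro ⟨_, h2⟩
      by_contra h3
      have h4 := h2 (2 ^ m) (by omega)
      unfold padW at h4
      rw [List.getD_append_right _ _ _ _ (by simp)] at h4
      simp at h4
    · intro hi
      refine ⟨by omega, ?_⟩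
      intro j hj
      unfold padW
      rw [List.getD_append _ _ _ _ (by simp; omega)]
      rw [List.getD_eq_getElem _ _ (by simp; omega), List.getElem_replicate]
  convert congrArg Finset.card h
  simp

lemma length_padW (m : ℕ) (x : List Bool) : (padW m x).length = 2 ^ m + (x.length + 1) := by
  unfold padW; simp

lemma wlen_padW (m : ℕ) (x : List Bool) : wlen (padW m x) = x.length := by
  unfold wlen
  rw [lead_padW, length_padW]
  omega

lemma wbit_padW (m : ℕ) (x : List Bool) (i : ℕ) : wbit (padW m x) i = x.getD i false := by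
  unfold wbit
  rw [lead_padW]
  unfold padW
  rw [List.getD_append_right _ _ _ _ (by simp; omega)]
  have : 2 ^ m + 1 + i - (List.replicate (2 ^ m) true).length = i + 1 := by
    rw [List.length_replicate]; omega
  rw [this, List.getD_cons_succ]

/-- The meaning of the selectors. -/
lemma sv_iff {S n l : ℕ} (hS : 2 ^ (l - 1) < S) (bit : ℕ → Bool) (k : ℕ) :
    SV S n l bit k ↔ ∃ p < n, bit p = true ∧ ∀ t < l, bit ((k * l + t) * 2 + p / 2 ^ t % 2) = true := by
  unfold SV
  refine exists_congr fun p => and_congr_right fun _ => and_congr_right fun _ => ?_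
  refine forall_congr' fun t => imp_congr_right fun ht => ?_
  have h1 : 2 ^ t < S := lt_of_le_of_lt (Nat.pow_le_pow_right (by norm_num) (by omega)) hS
  unfold dig
  rw [pw_eq Nat.prime_two h1]

/-- Monotonicity. -/
lemma langL_mono (a B d n : ℕ) : Monotone fun x : Fin n → Bool => langL a B d (List.ofFn x) := by
  intro x y hxy
  rw [Bool.le_iff_imp]
  simp only
  intro hx
  rw [langL_eq_true_iff] at hx ⊢
  unfold PLangL at hx ⊢
  have hb : ∀ i, wbit (padW ((List.ofFn x).length / d) (List.ofFn x)) i = true →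
      wbit (padW ((List.ofFn y).length / d) (List.ofFn y)) i = true := by
    intro i hi
    rw [wbit_padW] at hi ⊢
    by_cases hlt : i < n
    · rw [List.getD_eq_getElem _ _ (by simpa using hlt), List.getElem_ofFn] at hi ⊢
      exact Bool.le_iff_imp.mp (hxy _) hi
    · rw [List.getD_eq_default _ _ (by simpa using hlt)] at hi
      exact absurd hi (by simp)
  rw [wlen_padW, length_padW] at hx ⊢
  simp only [List.length_ofFn] at hx hb ⊢
  obtain ⟨h, hh, u, hu, H⟩ := hx
  refine ⟨h, hh, u, hu, fun i hi => ?_⟩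
  obtain ⟨s, hs, h0, h1, p, hp, h2, h3⟩ := H i hi
  exact ⟨s, hs, h0, h1, p, hp, hb _ h2, fun t ht => hb _ (h3 t ht)⟩

/-- The meaning of the language, under the assumptions on the parameters. -/
theorem langL_iff (a B d n q l : ℕ) [Fact q.Prime] (hq : q = pq a B n) (hl : l = lgc n)
    (hS : q ^ (2 * rt B n ^ a + 1) ≤ 2 ^ (n / d)) (hl2 : 2 ^ (l - 1) ≤ n + 1)
    (x : Fin n → Bool) :
    langL a B d (List.ofFn x) = true ↔
      ∃ h < 2 * pr a B n, ∃ c : Fin (2 * rt B n ^ a) → ZMod q, ∀ i < rt B n ^ (a + 1),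
        ∃ p < n, (List.ofFn x).getD p false = true ∧ ∀ t < l,
          (List.ofFn x).getD (((h * (rt B n ^ (a + 1) * q) + (i * q + (pval c i).val)) * l + t) * 2
            + p / 2 ^ t % 2) false = true := by
  classical
  rw [langL_eq_true_iff]
  unfold PLangL
  rw [wlen_padW, length_padW, List.length_ofFn, ← hq, ← hl]
  have hb : ∀ i, wbit (padW (n / d) (List.ofFn x)) i = (List.ofFn x).getD i false :=
    fun i => wbit_padW _ _ i
  have hb' : wbit (padW (n / d) (List.ofFn x)) = fun i => (List.ofFn x).getD i false := funext hb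
  rw [hb']
  have hS' : q ^ (2 * rt B n ^ a + 1) ≤ 2 ^ (n / d) + (n + 1) := hS.trans (Nat.le_add_right _ _)
  have hpos : 0 < 2 ^ (n / d) := by positivity
  refine exists_congr fun h => and_congr_right fun _ => ?_
  rw [gacc_iff_acc, acc_iff hS']
  refine exists_congr fun c => forall₂_congr fun i _ => ?_
  rw [decide_eq_true_eq, sv_iff (by omega)]

end Pool.Agent.LocE
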