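import Pool.Agent.NegLim.Dom
import Pool.Agent.NegLim.Poly
import Pool.Agent.NegLim.Abstract
import Pool.Agent.NegLim.Walk

/-!
# Distributions on the zeros and ones of one block which circuits without NOT gates cannot tell
apart
-/

namespace Pool.Agent.LocE

open Pool.Agent.NegLim Finset
open scoped BigOperators

set_option linter.unusedSectionVars false

section

variable {V : Type} [Fintype V] [DecidableEq V]

/-- A circuit without NOT gates computes a monotone function of the same size. -/
lemma monSize_of_negs (C : Circuit V) (o : Wire V) (h : C.negs = 0) :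
    MonSize C.size {x : Finset V | C.val (chi x) o = true} := by
  obtain ⟨U, _, J, _, sel, g, fs, hU, hJ, hg, hfs, hsel, hval⟩ := decomp C
  have hJ0 : Fintype.card J = 0 := by
    rw [h] at hJ
    simpa using hJ
  have : IsEmpty J := Fintype.card_eq_zero_iff.mp hJ0
  have hs : ∀ x, sel x = sel ∅ := fun x => hsel x ∅ fun j => (IsEmpty.false j).elim
  obtain ⟨D, hD, hfD⟩ := hfs (sel ∅)
  refine ⟨C.size - C.negs, Nat.sub_le _ _, D, hD, ?_⟩
  have h1 : {x : Finset V | C.val (chi x) o = true} = o.fam (fs (sel ∅)) := by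
    ext x
    show C.val (chi x) o = true ↔ _
    unfold Circuit.val
    rw [hval x, hs x, Wire.val_fam, mb_iff]
  rw [h1]
  exact Wire.fam_mem hD.base_subset hfD o

/-- The probability of the set `S` after `n` steps of noise from the empty set. -/
noncomputable def nzw (M n : ℕ) (S : Finset V) : ℝ := (nz M ^ n) (ind {S}) ∅

lemma nzw_nonneg (M n : ℕ) (S : Finset V) : 0 ≤ nzw M n S := by
  have h1 := nz_pow_mono M n (g := fun _ => 0) (h := ind {S}) (fun x => ind_nonneg _ x) ∅
  rw [nz_pow_const] at h1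
  exact h1

lemma nz_eq_sum (M n : ℕ) (φ : Finset V → ℝ) :
    (nz M ^ n) φ ∅ = ∑ S, nzw M n S * φ S := by
  have h1 : φ = ∑ S, φ S • ind {S} := by
    funext x
    rw [Finset.sum_apply, Finset.sum_eq_single x]
    · rw [Pi.smul_apply, ind_of_mem (show x ∈ ({x} : Set (Finset V)) from rfl), smul_eq_mul,
        mul_one]
    · intro b _ hb
      rw [Pi.smul_apply, ind_of_notMem (show x ∉ ({b} : Set (Finset V)) from fun h => hb h.symm),
        smul_zero]
    · intro h'
      exact absurd (mem_univ x) h'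
  conv_lhs => rw [h1]
  rw [map_sum, Finset.sum_apply]
  refine Finset.sum_congr rfl fun S _ => ?_
  rw [map_smul, Pi.smul_apply, smul_eq_mul, mul_comm]
  rfl

lemma ip_sum_eq {X : Type} [Fintype X] (P : X → Prop) [DecidablePred P] (y : X) :
    ∑ x with P x, ip (y = x) = ip (P y) := by
  classical
  unfold ip
  rw [Finset.sum_filter]
  by_cases h : P y
  · rw [Finset.sum_eq_single y]
    · simp [h]
    · intro b _ hb
      by_cases hP : P b
      · simp [hP, Ne.symm hb]
      · simp [hP]
    · intro h'; exact absurd (mem_univ y) h'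
  · rw [if_neg h]
    refine Finset.sum_eq_zero fun b _ => ?_
    by_cases hP : P b
    · have : y ≠ b := fun h' => h (h' ▸ hP)
      simp [hP, this]
    · simp [hP]

open Classical in
/-- Zeros: noise from the empty set; a set containing some `cw y` is replaced by the empty set. -/
noncomputable def distZero {Y : Type} (cw : Y → Finset V) (M n : ℕ) (u : V → Bool) : ℝ :=
  ∑ S, nzw M n S * ip ((if S ∈ upFam cw then fun _ => false else chi S) = u)

/-- Ones: a random `cw y`. -/
noncomputable def distOne {Y : Type} [Fintype Y] (cw : Y → Finset V) (u : V → Bool) : ℝ :=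
  𝔼 y : Y, ip (chi (cw y) = u)

variable {Y : Type} [Fintype Y] [Nonempty Y] (cw : Y → Finset V)

lemma distZero_sum (M n : ℕ) (P : (V → Bool) → Prop) [DecidablePred P] :
    ∑ u with P u, distZero cw M n u = ∑ S, nzw M n S *
      ip (P (open Classical in if S ∈ upFam cw then fun _ => false else chi S)) := by
  classical
  unfold distZero
  rw [Finset.sum_comm]
  refine Finset.sum_congr rfl fun S _ => ?_
  rw [← Finset.mul_sum, ip_sum_eq]

lemma distOne_sum (P : (V → Bool) → Prop) [DecidablePred P] :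
    ∑ u with P u, distOne cw u = 𝔼 y : Y, ip (P (chi (cw y))) := by
  unfold distOne
  rw [← Finset.expect_sum_comm]
  refine Finset.expect_congr rfl fun y _ => ?_
  rw [ip_sum_eq]

/-- Circuits without NOT gates do not tell the two distributions apart. -/
theorem block_dist (q M L k w N s : ℕ) (hq0 : 0 < q) (hk : 1 ≤ L * k)
    (hw : 1 ≤ w) (hq : 256 * (M + 1) ≤ q) (hwL : 2 * w < 2 ^ L) (hsp : Spread cw w (q : ℝ))
    (hkw : (Fintype.card V + 1) ^ (2 * w) * 4 ^ w ≤ 4 ^ k) (hn : 2 * (L * k) ≤ M + 1)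
    (hN1 : 1 ≤ N) (hN : ∀ y, N ≤ (cw y).card) :
    ∃ D₀ D₁ : (V → Bool) → ℝ, (∀ u, 0 ≤ D₀ u) ∧ ∑ u, D₀ u = 1 ∧
      (∀ u, D₀ u ≠ 0 → ¬ ∃ y, ∀ v ∈ cw y, u v = true) ∧ (∀ u, 0 ≤ D₁ u) ∧ ∑ u, D₁ u = 1 ∧
      (∀ u, D₁ u ≠ 0 → ∃ y, ∀ v ∈ cw y, u v = true) ∧
      ∀ (C : Circuit V) (o : Wire V), C.negs = 0 → C.size ≤ s →
        ∑ u with C.val u o = true, D₁ u ≤ ∑ u with C.val u o = true, D₀ u
          + (s * (2 * (1 / 4 : ℝ) ^ w) + Fintype.card Y * (1 / 2 : ℝ) ^ N) := by
  classical
  set n := L * k with hnk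
  have hmass : ∑ S : Finset V, nzw M n S = 1 := by
    have h1 := nz_eq_sum (V := V) M n (fun _ => 1)
    rw [nz_pow_const] at h1
    simpa using h1.symm
  refine ⟨distZero cw M n, distOne cw, ?_, ?_, ?_, ?_, ?_, ?_, ?_⟩
  · intro u
    exact Finset.sum_nonneg fun S _ => mul_nonneg (nzw_nonneg M n S) (ip_nonneg _)
  · have h1 := distZero_sum cw M n (fun _ => True)
    rw [Finset.filter_true] at h1
    rw [h1]
    simp only [ip_true trivial, mul_one]
    exact hmass
  · rintro u hu ⟨y, hy⟩
    apply hu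
    refine Finset.sum_eq_zero fun S _ => ?_
    by_cases hS : S ∈ upFam cw
    · rw [if_pos hS, ip_false, mul_zero]
      intro h
      have h1 : (cw y).Nonempty := by
        rw [← Finset.card_pos]
        exact lt_of_lt_of_le (by omega) (hN y)
      obtain ⟨v, hv⟩ := h1
      have h2 := hy v hv
      rw [← h] at h2
      exact absurd h2 (by simp)
    · rw [if_neg hS, ip_false, mul_zero]
      intro h
      apply hS
      refine ⟨y, fun v hv => ?_⟩
      have h2 := hy v hv
      rw [← h] at h2
      simpa [chi] using h2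
  · intro u
    exact Finset.expect_nonneg fun y _ => ip_nonneg _
  · have h1 := distOne_sum cw (fun _ => True)
    rw [Finset.filter_true] at h1
    rw [h1]
    simp only [ip_true trivial]
    exact Fintype.expect_const _
  · intro u hu
    by_contra hcon
    apply hu
    refine (Finset.expect_congr rfl fun y _ => ?_).trans (Finset.expect_const_zero _)
    rw [ip_false]
    intro h
    apply hcon
    refine ⟨y, fun v hv => ?_⟩
    rw [← h]
    simpa [chi] using hv
  · intro C o hneg hsz
    have hF := monSize_of_negs C o hneg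
    set F : Set (Finset V) := {x : Finset V | C.val (chi x) o = true} with hFdef
    have h1 := domination2 cw M L k w (q : ℝ) (by exact_mod_cast hq0) hk hw (by exact_mod_cast hq)
      hwL hsp (by
        have h1 : ((Fintype.card V : ℝ) + 1) ^ (2 * w) * 4 ^ w ≤ 4 ^ k := by exact_mod_cast hkw
        have h2 : (1 / 4 : ℝ) ^ k = 1 / 4 ^ k := by rw [one_div, inv_pow, one_div]
        have h3 : (1 / 4 : ℝ) ^ w = 1 / 4 ^ w := by rw [one_div, inv_pow, one_div]
        rw [h2, h3, mul_one_div, div_le_div_iff₀ (by positivity) (by positivity)]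
        linarith) hF ∅
    have h2 : ∑ u with C.val u o = true, distOne cw u = 𝔼 y : Y, ind F (∅ ∪ cw y) := by
      rw [distOne_sum]
      refine Finset.expect_congr rfl fun y _ => ?_
      rw [Finset.empty_union]
      by_cases h : C.val (chi (cw y)) o = true
      · rw [ip_true h, ind_of_mem (show cw y ∈ F from h)]
      · rw [ip_false h, ind_of_notMem (show cw y ∉ F from h)]
    have h3 : (nz M ^ n) (ind F) ∅ ≤ ∑ u with C.val u o = true, distZero cw M n u
        + (nz M ^ n) (ind (upFam cw)) ∅ := by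
      rw [distZero_sum, nz_eq_sum, nz_eq_sum, ← Finset.sum_add_distrib]
      refine Finset.sum_le_sum fun S _ => ?_
      rw [← mul_add]
      refine mul_le_mul_of_nonneg_left ?_ (nzw_nonneg M n S)
      by_cases hS : S ∈ upFam cw
      · rw [ind_of_mem hS]
        have := ind_le_one F S
        have := ip_nonneg (C.val (if S ∈ upFam cw then fun _ => false else chi S) o = true)
        linarith
      · rw [ind_of_notMem hS, if_neg hS, add_zero]
        by_cases h : C.val (chi S) o = true
        · rw [ip_true h]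
          exact ind_le_one F S
        · rw [ip_false h, ind_of_notMem (show S ∉ F from h)]
    have h4 := upFam_prob cw M n N hn hN
    have h5 : (C.size : ℝ) * (2 * (1 / 4 : ℝ) ^ w) ≤ s * (2 * (1 / 4 : ℝ) ^ w) := by
      apply mul_le_mul_of_nonneg_right _ (by positivity)
      exact_mod_cast hsz
    rw [h2]
    linarith

end

/-- The polynomial function: some polynomial of degree less than `2 w` over `ZMod q` has all its
points in `u`. -/
noncomputable def polyFn (q w N : ℕ) (u : Fin N × ZMod q → Bool) : Bool :=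
  open Classical in
  decide (∃ c : Fin (2 * w) → ZMod q, ∀ j : Fin N, u (j, pval c (j : ℕ)) = true)

lemma polyFn_iff (q w N : ℕ) (u : Fin N × ZMod q → Bool) : polyFn q w N u = true ↔
    ∃ c : Fin (2 * w) → ZMod q, ∀ j : Fin N, u (j, pval c (j : ℕ)) = true := by
  unfold polyFn
  simp

lemma polyFn_mono (q w N : ℕ) : Monotone (polyFn q w N) := by
  intro u v huv h
  have h1 : polyFn q w N u = true := h
  rw [polyFn_iff] at h1
  obtain ⟨c, hc⟩ := h1
  have h2 : polyFn q w N v = true := by
    rw [polyFn_iff]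
    refine ⟨c, fun j => ?_⟩
    have h3 := huv (j, pval c (j : ℕ))
    rw [hc j] at h3
    exact top_le_iff.mp h3
  exact h2

lemma polyFn_zero (q w N : ℕ) (hN : 1 ≤ N) : polyFn q w N (fun _ => false) = false := by
  rw [Bool.eq_false_iff]
  intro h
  rw [polyFn_iff] at h
  obtain ⟨c, hc⟩ := h
  exact absurd (hc ⟨0, by omega⟩) (by simp)

/-- **One block.** Distributions on the zeros and on the ones of the polynomial function which
circuits without NOT gates with at most `s` gates do not tell apart. -/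
theorem poly_block (N w M L k q s : ℕ) [Fact q.Prime] (hw : 1 ≤ w) (h2w : 2 * w ≤ N)
    (hNq : N ≤ q) (hM : 256 * (M + 1) ≤ q) (hL : 2 * w < 2 ^ L)
    (hk : (N * q + 1) ^ (2 * w) * 4 ^ w ≤ 4 ^ k) (hr : 2 * (L * k) ≤ M + 1) :
    ∃ D₀ D₁ : (Fin N × ZMod q → Bool) → ℝ, (∀ u, 0 ≤ D₀ u) ∧ ∑ u, D₀ u = 1 ∧
      (∀ u, D₀ u ≠ 0 → polyFn q w N u = false) ∧ (∀ u, 0 ≤ D₁ u) ∧ ∑ u, D₁ u = 1 ∧
      (∀ u, D₁ u ≠ 0 → polyFn q w N u = true) ∧
      ∀ (C : Circuit (Fin N × ZMod q)) (o : Wire (Fin N × ZMod q)), C.negs = 0 → C.size ≤ s →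
        ∑ u with C.val u o = true, D₁ u ≤ ∑ u with C.val u o = true, D₀ u
          + (s * (2 * (1 / 4 : ℝ) ^ w) + (q : ℝ) ^ (2 * w) * (1 / 2 : ℝ) ^ N) := by
  have hqp : q.Prime := Fact.out
  have hLk : 1 ≤ L * k := by
    rcases Nat.eq_zero_or_pos (L * k) with h0 | h0
    · exfalso
      rcases Nat.mul_eq_zero.mp h0 with h1 | h1
      · rw [h1] at hL; simp at hL; omega
      · rw [h1, pow_zero] at hk
        have h2 : 1 ≤ (N * q + 1) ^ (2 * w) := Nat.one_le_pow _ _ (by omega)
        have h3 : 4 ^ 1 ≤ 4 ^ w := Nat.pow_le_pow_right (by norm_num) hw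
        nlinarith
    · exact h0
  have hiff : ∀ u : Fin N × ZMod q → Bool,
      (∃ c : Fin (2 * w) → ZMod q, ∀ v ∈ graph N c, u v = true) ↔ polyFn q w N u = true := by
    intro u
    rw [polyFn_iff]
    refine exists_congr fun c => ⟨fun h j => h _ (mem_graph.mpr rfl), fun h v hv => ?_⟩
    have h1 := mem_graph.mp hv
    have h2 := h v.1
    rw [← h1] at h2
    exact h2
  obtain ⟨D₀, D₁, h1, h2, h3, h4, h5, h6, h7⟩ := block_dist
    (fun c : Fin (2 * w) → ZMod q => graph N c) q M L k w N s hqp.pos hLk hw hM hL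
    (spread_graph w h2w hNq) (by
      rw [Fintype.card_prod, Fintype.card_fin, ZMod.card]
      exact hk) hr (by omega) (fun c => (card_graph c).ge)
  refine ⟨D₀, D₁, h1, h2, fun u hu => ?_, h4, h5, fun u hu => (hiff u).mp (h6 u hu), ?_⟩
  · have h8 := h3 u hu
    rw [hiff] at h8
    simpa using h8
  · intro C o hC hs
    refine (h7 C o hC hs).trans (le_of_eq ?_)
    rw [Fintype.card_fun, ZMod.card, Fintype.card_fin]
    push_cast
    ring

end Pool.Agent.LocE
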