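import Pool.Agent.NTR.Self

set_option autoImplicit false

/-!
# Self-addressing selectors which read a pool larger than the address bits

The variables are indexed by `ι`, the address bits of the selectors are among them (`A`), and each
selector reads one of ALL variables.  For every set `U` of variables, `r'` blocks of selectors,
`r' (4 |B| L) ≤ |U|`, can be pointed to distinct variables of `U`, all variables outside `U` being
constants and all other selectors having the value `0`.
-/

namespace Pool.Agent.LocE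

open Pool.Agent.NTR

/-- The value of the selector `k`: `∃ p, x_p ∧ ∀ l, x_(A (k, l, code(p)_l))`. -/
def poolVal {ι : Type} {r L : ℕ} {B : Type} (code : ι → Fin L → Bool) (A : SelfVar r L B → ι)
    (x : ι → Bool) (k : (Bool × Fin r) × B) : Prop :=
  ∃ p : ι, x p = true ∧ ∀ l, x (A (k, l, code p l)) = true

theorem exists_pool_restriction {ι : Type} {r L : ℕ} {B : Type} [Fintype B] [Nonempty B]
    (hL : 2 ≤ L) (code : ι → Fin L → Bool) (hcode : Function.Injective code)
    (A : SelfVar r L B → ι) (hA : Function.Injective A)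
    (U : Finset ι) (r' : ℕ) (hrr : r' ≤ r) (hr : r' * (4 * Fintype.card B * L) ≤ U.card) :
    ∃ (φ : ι → (Fin r' × B) ⊕ Bool) (e : Fin r' → Bool × Fin r),
      Function.Injective e ∧ (∀ v, v ∉ U → ∃ c, φ v = .inr c) ∧
      ∀ y : Fin r' × B → Bool,
        (∀ i β, poolVal code A (fun v => Sum.elim y id (φ v)) (e i, β) ↔ y (i, β) = true) ∧
        ∀ j, (∀ i, e i ≠ j) → ∀ β, ¬ poolVal code A (fun v => Sum.elim y id (φ v)) (j, β) := by
  classical
  -- choice of the address position `ls`
  obtain ⟨ls, hls⟩ : ∃ ls : Fin L,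
      U.card ≤ 2 * (U.filter fun v => ∀ s, A s = v → s.2.1 ≠ ls).card := by
    set l0 : Fin L := ⟨0, by omega⟩ with hl0
    set l1 : Fin L := ⟨1, by omega⟩ with hl1
    have h01 : l0 ≠ l1 := by
      intro h
      have := congrArg Fin.val h
      simp [hl0, hl1] at this
    have hsub : U ⊆ (U.filter fun v => ∀ s, A s = v → s.2.1 ≠ l0) ∪
        (U.filter fun v => ∀ s, A s = v → s.2.1 ≠ l1) := by
      intro v hv
      rw [Finset.mem_union, Finset.mem_filter, Finset.mem_filter]
      by_cases h : ∃ s, A s = v ∧ s.2.1 = l0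
      · obtain ⟨s, hs, hs0⟩ := h
        refine Or.inr ⟨hv, fun s' hs' => ?_⟩
        have hss : s' = s := hA (hs'.trans hs.symm)
        rw [hss, hs0]
        exact h01
      · exact Or.inl ⟨hv, fun s hs h' => h ⟨s, hs, h'⟩⟩
    have h1 := (Finset.card_le_card hsub).trans (Finset.card_union_le _ _)
    rcases le_total (U.filter fun v => ∀ s, A s = v → s.2.1 ≠ l0).card
      (U.filter fun v => ∀ s, A s = v → s.2.1 ≠ l1).card with h | h
    · exact ⟨l1, by omega⟩
    · exact ⟨l0, by omega⟩
  -- choice of the half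
  obtain ⟨h, hh⟩ : ∃ h : Bool, U.card ≤
      4 * (U.filter fun v => ∀ s, A s = v → s.2.1 ≠ ls ∧ s.1.1.1 ≠ h).card := by
    have hsub : (U.filter fun v => ∀ s, A s = v → s.2.1 ≠ ls) ⊆
        (U.filter fun v => ∀ s, A s = v → s.2.1 ≠ ls ∧ s.1.1.1 ≠ true) ∪
        (U.filter fun v => ∀ s, A s = v → s.2.1 ≠ ls ∧ s.1.1.1 ≠ false) := by
      intro v hv
      rw [Finset.mem_filter] at hv
      rw [Finset.mem_union, Finset.mem_filter, Finset.mem_filter]
      by_cases hb : ∃ s, A s = v ∧ s.1.1.1 = true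
      · obtain ⟨s, hs, hs0⟩ := hb
        refine Or.inr ⟨hv.1, fun s' hs' => ⟨hv.2 s' hs', ?_⟩⟩
        have hss : s' = s := hA (hs'.trans hs.symm)
        rw [hss, hs0]
        simp
      · exact Or.inl ⟨hv.1, fun s hs => ⟨hv.2 s hs, fun h' => hb ⟨s, hs, h'⟩⟩⟩
    have h1 := (Finset.card_le_card hsub).trans (Finset.card_union_le _ _)
    rcases le_total (U.filter fun v => ∀ s, A s = v → s.2.1 ≠ ls ∧ s.1.1.1 ≠ true).card
      (U.filter fun v => ∀ s, A s = v → s.2.1 ≠ ls ∧ s.1.1.1 ≠ false).card with h | h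
    · exact ⟨false, by omega⟩
    · exact ⟨true, by omega⟩
  set W := U.filter fun v => ∀ s, A s = v → s.2.1 ≠ ls ∧ s.1.1.1 ≠ h with hW
  have hWc : r' * Fintype.card B ≤ W.card := by
    have h1 : r' * Fintype.card B * 4 ≤ r' * (4 * Fintype.card B * L) := by
      have : r' * Fintype.card B * 4 * 1 ≤ r' * Fintype.card B * 4 * L :=
        Nat.mul_le_mul_left _ (by omega)
      calc r' * Fintype.card B * 4 = r' * Fintype.card B * 4 * 1 := by ring
        _ ≤ r' * Fintype.card B * 4 * L := this
        _ = r' * (4 * Fintype.card B * L) := by ring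
    omega
  obtain ⟨p⟩ : Nonempty (Fin r' × B ↪ {v // v ∈ W}) := by
    apply Function.Embedding.nonempty_of_card_le
    rw [Fintype.card_coe, Fintype.card_prod, Fintype.card_fin]
    exact hWc
  set e : Fin r' → Bool × Fin r := fun i => (h, Fin.castLE hrr i) with he
  have heinj : Function.Injective e := by
    intro i i' hii
    exact Fin.castLE_injective hrr (congrArg Prod.snd hii)
  have hpW : ∀ q s, A s = (p q : ι) → s.2.1 ≠ ls ∧ s.1.1.1 ≠ h := fun q =>
    (Finset.mem_filter.1 (p q).2).2
  have hpinj : ∀ q q', (p q : ι) = p q' → q = q' := fun q q' hqq =>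
    p.injective (Subtype.ext hqq)
  -- the constants
  let κs : SelfVar r L B → Bool := fun s =>
    if hq : ∃ q : Fin r' × B, (e q.1, q.2) = s.1 then
      decide (s.2.2 = code (p hq.choose) s.2.1) else false
  let κ : ι → Bool := fun v => if hs : ∃ s, A s = v then κs hs.choose else false
  have hκ : ∀ s, κ (A s) = κs s := by
    intro s
    have hs : ∃ s', A s' = A s := ⟨s, rfl⟩
    simp only [κ, dif_pos hs]
    rw [hA hs.choose_spec]
  let φ : ι → (Fin r' × B) ⊕ Bool := fun v =>
    if hq : ∃ q : Fin r' × B, (p q : ι) = v then .inl hq.choose else .inr (κ v)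
  have hφp : ∀ q, φ (p q) = .inl q := by
    intro q
    have hq : ∃ q' : Fin r' × B, (p q' : ι) = p q := ⟨q, rfl⟩
    simp only [φ, dif_pos hq]
    rw [hpinj _ _ hq.choose_spec]
  have hφe : ∀ i β l c, φ (A ((e i, β), l, c)) = .inr (decide (c = code (p (i, β)) l)) := by
    intro i β l c
    have h1 : ¬ ∃ q : Fin r' × B, (p q : ι) = A ((e i, β), l, c) := by
      rintro ⟨q, hq⟩
      exact (hpW q _ hq.symm).2 rfl
    have h2 : ∃ q : Fin r' × B, (e q.1, q.2) = (e i, β) := ⟨(i, β), rfl⟩
    have h3 : h2.choose = (i, β) := by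
      have h4 := h2.choose_spec
      have h5 := heinj (congrArg Prod.fst h4)
      have h6 := congrArg Prod.snd h4
      exact Prod.ext h5 h6
    simp only [φ, dif_neg h1, hκ, κs, dif_pos h2, h3]
  have hφ0 : ∀ j β c, (∀ i, e i ≠ j) → φ (A ((j, β), ls, c)) = .inr false := by
    intro j β c hj
    have h1 : ¬ ∃ q : Fin r' × B, (p q : ι) = A ((j, β), ls, c) := by
      rintro ⟨q, hq⟩
      exact (hpW q _ hq.symm).1 rfl
    have h2 : ¬ ∃ q : Fin r' × B, (e q.1, q.2) = (j, β) := by
      rintro ⟨q, hq⟩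
      exact hj q.1 (congrArg Prod.fst hq)
    simp only [φ, dif_neg h1, hκ, κs, dif_neg h2]
  refine ⟨φ, e, heinj, ?_, fun y => ⟨?_, ?_⟩⟩
  · intro v hv
    have h1 : ¬ ∃ q : Fin r' × B, (p q : ι) = v := by
      rintro ⟨q, rfl⟩
      exact hv (Finset.mem_filter.1 (p q).2).1
    exact ⟨κ v, by simp only [φ, dif_neg h1]⟩
  · intro i β
    constructor
    · rintro ⟨p', h1, h2⟩
      have h3 : p' = (p (i, β) : ι) := by
        apply hcode
        funext l
        have h4 := h2 l
        simp only [hφe, Sum.elim_inr, id, decide_eq_true_eq] at h4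
        exact h4
      subst h3
      simpa [hφp] using h1
    · intro hy
      refine ⟨p (i, β), ?_, fun l => ?_⟩
      · simpa [hφp] using hy
      · simp only [hφe, Sum.elim_inr, id, decide_eq_true_eq]
  · rintro j hj β ⟨p', h1, h2⟩
    have h3 := h2 ls
    simp only [hφ0 j β _ hj, Sum.elim_inr, id] at h3
    exact absurd h3 (by simp)

end Pool.Agent.LocE
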