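import Pool.Agent.LocE.Lang
import Pool.Agent.LocE.Restr
import Pool.Agent.LocE.Block
import Pool.Agent.NTR.AvgCirc

set_option autoImplicit false

/-!
# The language as a disjunction of copies of the polynomial function on selectors
-/

namespace Pool.Agent.LocE

open Finset Pool.Agent.NegLim Pool.Agent.NegLim.Lang Pool.Agent.NegLim.NPL Pool.Agent.NTR

/-- The binary digits of the number of a variable. -/
def code {n : ℕ} (l : ℕ) (p : Fin n) (t : Fin l) : Bool := (p : ℕ).testBit t

lemma code_injective {n l : ℕ} (h : n ≤ 2 ^ l) : Function.Injective (code l : Fin n → Fin l → Bool) := by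
  intro p p' hpp
  apply Fin.ext
  apply Nat.eq_of_testBit_eq
  intro t
  by_cases ht : t < l
  · exact congrFun hpp ⟨t, ht⟩
  · rw [Nat.testBit_lt_two_pow, Nat.testBit_lt_two_pow]
    · exact lt_of_lt_of_le p'.isLt (h.trans (Nat.pow_le_pow_right (by norm_num) (by omega)))
    · exact lt_of_lt_of_le p.isLt (h.trans (Nat.pow_le_pow_right (by norm_num) (by omega)))

/-- The number of an address variable. -/
def addr {r l N q : ℕ} (s : SelfVar r l (Fin N × ZMod q)) : ℕ :=
  ((((if s.1.1.1 then r else 0) + s.1.1.2) * (N * q) + (s.1.2.1 * q + s.1.2.2.val)) * l + s.2.1) * 2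
    + (if s.2.2 then 1 else 0)

lemma addr_lt {r l N q : ℕ} [NeZero q] (s : SelfVar r l (Fin N × ZMod q)) :
    addr s < r * (4 * (N * q) * l) := by
  obtain ⟨⟨⟨h, i⟩, ⟨j, v⟩⟩, t, c⟩ := s
  unfold addr
  have hv : v.val < q := ZMod.val_lt v
  have e1 : (if h then r else 0) + (i : ℕ) + 1 ≤ 2 * r := by
    have := i.isLt
    split_ifs <;> omega
  have e2 : (j : ℕ) * q + v.val + 1 ≤ N * q := by
    have h1 : ((j : ℕ) + 1) * q ≤ N * q := Nat.mul_le_mul_right _ j.isLt
    have h2 : ((j : ℕ) + 1) * q = j * q + q := by ring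
    omega
  have e3 : ((if h then r else 0) + (i : ℕ)) * (N * q) + (j * q + v.val) + 1 ≤ 2 * r * (N * q) := by
    have h1 : ((if h then r else 0) + (i : ℕ) + 1) * (N * q) ≤ 2 * r * (N * q) :=
      Nat.mul_le_mul_right _ e1
    have h2 : ((if h then r else 0) + (i : ℕ) + 1) * (N * q)
      = ((if h then r else 0) + (i : ℕ)) * (N * q) + N * q := by ring
    omega
  have e4 : (((if h then r else 0) + (i : ℕ)) * (N * q) + (j * q + v.val)) * l + t + 1
      ≤ 2 * r * (N * q) * l := by
    have h1 := Nat.mul_le_mul_right l e3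
    have h2 : (((if h then r else 0) + (i : ℕ)) * (N * q) + (j * q + v.val) + 1) * l
      = (((if h then r else 0) + (i : ℕ)) * (N * q) + (j * q + v.val)) * l + l := by ring
    have := t.isLt
    omega
  have e5 : r * (4 * (N * q) * l) = 2 * r * (N * q) * l * 2 := by ring
  rw [e5]
  have e6 : (if c = true then 1 else 0) ≤ 1 := by cases c <;> simp
  show ((((if h then r else 0) + (i : ℕ)) * (N * q) + (j * q + v.val)) * l + t) * 2
    + (if c = true then 1 else 0) < 2 * r * (N * q) * l * 2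
  generalize (((if h then r else 0) + (i : ℕ)) * (N * q) + (j * q + v.val)) * l = z at e4 ⊢
  generalize (if c = true then 1 else 0) = z' at e6 ⊢
  omega

lemma divmod_inj {m a a' b b' : ℕ} (hb : b < m) (hb' : b' < m) (h : a * m + b = a' * m + b') :
    a = a' ∧ b = b' := by
  have hm : 0 < m := by omega
  have h1 : (a * m + b) / m = (a' * m + b') / m := by rw [h]
  have h2 : (a * m + b) % m = (a' * m + b') % m := by rw [h]
  rw [mul_comm a, mul_comm a', Nat.mul_add_div hm, Nat.mul_add_div hm, Nat.div_eq_of_lt hb,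
    Nat.div_eq_of_lt hb'] at h1
  rw [mul_comm a, mul_comm a', Nat.mul_add_mod, Nat.mul_add_mod, Nat.mod_eq_of_lt hb,
    Nat.mod_eq_of_lt hb'] at h2
  exact ⟨by simpa using h1, h2⟩

lemma addr_injective {r l N q : ℕ} [NeZero q] :
    Function.Injective (addr : SelfVar r l (Fin N × ZMod q) → ℕ) := by
  rintro ⟨⟨⟨h, i⟩, ⟨j, v⟩⟩, t, c⟩ ⟨⟨⟨h', i'⟩, ⟨j', v'⟩⟩, t', c'⟩ heq
  unfold addr at heq
  have hv : v.val < q := ZMod.val_lt v
  have hv' : v'.val < q := ZMod.val_lt v'
  have b1 : (j : ℕ) * q + v.val < N * q := by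
    have h1 : ((j : ℕ) + 1) * q ≤ N * q := Nat.mul_le_mul_right _ j.isLt
    have h2 : ((j : ℕ) + 1) * q = j * q + q := by ring
    omega
  have b1' : (j' : ℕ) * q + v'.val < N * q := by
    have h1 : ((j' : ℕ) + 1) * q ≤ N * q := Nat.mul_le_mul_right _ j'.isLt
    have h2 : ((j' : ℕ) + 1) * q = j' * q + q := by ring
    omega
  obtain ⟨h1, h2⟩ := divmod_inj (by split_ifs <;> omega) (by split_ifs <;> omega) heq
  obtain ⟨h3, h4⟩ := divmod_inj t.isLt t'.isLt h1
  obtain ⟨h5, h6⟩ := divmod_inj b1 b1' h3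
  obtain ⟨h7, h8⟩ := divmod_inj hv hv' h6
  have hc : c = c' := by
    cases c <;> cases c' <;> simp at h2 ⊢
  have hh : h = h' ∧ i = i' := by
    have := i.isLt
    have := i'.isLt
    cases h <;> cases h' <;> simp at h5 ⊢ <;> omega
  obtain ⟨rfl, rfl⟩ := hh
  have hj : j = j' := Fin.ext h7
  have ht : t = t' := Fin.ext h4
  have hvv : v = v' := ZMod.val_injective q h8
  subst hj ht hvv hc
  rfl

/-- The address variable among the `n` variables. -/
def A {r l N q n : ℕ} [NeZero q] (hn : r * (4 * (N * q) * l) ≤ n)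
    (s : SelfVar r l (Fin N × ZMod q)) : Fin n :=
  ⟨addr s, (addr_lt s).trans_le hn⟩

lemma A_injective {r l N q n : ℕ} [NeZero q] (hn : r * (4 * (N * q) * l) ≤ n) :
    Function.Injective (A hn : SelfVar r l (Fin N × ZMod q) → Fin n) := by
  intro s s' h
  exact addr_injective (congrArg Fin.val h)

lemma getD_ofFn {n : ℕ} (x : Fin n → Bool) {k : ℕ} (hk : k < n) :
    (List.ofFn x).getD k false = x ⟨k, hk⟩ := by
  rw [List.getD_eq_getElem _ _ (by simpa using hk), List.getElem_ofFn]

/-- The language: the disjunction of `2 r` copies of the polynomial function on the values of the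
selectors. -/
theorem langL_iff_pool (a B d n q : ℕ) [Fact q.Prime] (hq : q = pq a B n)
    (hS : q ^ (2 * rt B n ^ a + 1) ≤ 2 ^ (n / d)) (hl2 : 2 ^ (lgc n - 1) ≤ n + 1)
    (hn : pr a B n * (4 * (rt B n ^ (a + 1) * q) * lgc n) ≤ n)
    (x : Fin n → Bool) :
    langL a B d (List.ofFn x) = true ↔
      ∃ k : Bool × Fin (pr a B n), ∃ u : Fin (rt B n ^ (a + 1)) × ZMod q → Bool,
        (∀ β, u β = true ↔ poolVal (code (lgc n)) (A hn) x (k, β)) ∧
        polyFn q (rt B n ^ a) (rt B n ^ (a + 1)) u = true := by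
  classical
  have hqp : q.Prime := Fact.out
  rw [langL_iff a B d n q (lgc n) hq rfl hS hl2]
  -- the meaning of one selector
  have hsel : ∀ (k : Bool × Fin (pr a B n)) (j : Fin (rt B n ^ (a + 1))) (v : ZMod q),
      (∃ p < n, (List.ofFn x).getD p false = true ∧ ∀ t < lgc n,
        (List.ofFn x).getD (((((if k.1 then pr a B n else 0) + k.2) * (rt B n ^ (a + 1) * q)
          + (j * q + v.val)) * lgc n + t) * 2 + p / 2 ^ t % 2) false = true) ↔
      poolVal (code (lgc n)) (A hn) x (k, (j, v)) := by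
    intro k j v
    unfold poolVal
    have hbit : ∀ (p : ℕ) (t : ℕ), p / 2 ^ t % 2 = if p.testBit t then 1 else 0 := by
      intro p t
      rw [Nat.testBit_eq_decide_div_mod_eq]
      by_cases h : p / 2 ^ t % 2 = 1
      · simp [h]
      · have : p / 2 ^ t % 2 = 0 := by omega
        simp [this]
    constructor
    · rintro ⟨p, hp, h1, h2⟩
      refine ⟨⟨p, hp⟩, by rwa [getD_ofFn x hp] at h1, fun t => ?_⟩
      have h3 := h2 t t.isLt
      rw [hbit] at h3
      have h4 : addr (r := pr a B n) (l := lgc n) (N := rt B n ^ (a + 1)) (q := q)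
          ((k, (j, v)), t, code (lgc n) (⟨p, hp⟩ : Fin n) t) < n := (addr_lt _).trans_le hn
      have h5 := getD_ofFn x h4
      show x ⟨addr _, _⟩ = true
      rw [← h5]
      exact h3
    · rintro ⟨p, h1, h2⟩
      refine ⟨p, p.isLt, by rw [getD_ofFn x p.isLt]; exact h1, fun t ht => ?_⟩
      have h3 := h2 ⟨t, ht⟩
      rw [hbit]
      have h4 : addr (r := pr a B n) (l := lgc n) (N := rt B n ^ (a + 1)) (q := q)
          ((k, (j, v)), ⟨t, ht⟩, code (lgc n) p ⟨t, ht⟩) < n := (addr_lt _).trans_le hn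
      have h5 := getD_ofFn x h4
      have h6 : x ⟨addr (r := pr a B n) (l := lgc n) (N := rt B n ^ (a + 1)) (q := q)
          ((k, (j, v)), ⟨t, ht⟩, code (lgc n) p ⟨t, ht⟩), h4⟩ = true := h3
      rw [← h5] at h6
      exact h6
  constructor
  · rintro ⟨h, hh, c, hc⟩
    have hk : ∃ k : Bool × Fin (pr a B n), (if k.1 then pr a B n else 0) + (k.2 : ℕ) = h := by
      by_cases h1 : h < pr a B n
      · exact ⟨(false, ⟨h, h1⟩), by simp⟩
      · exact ⟨(true, ⟨h - pr a B n, by omega⟩), by simp; omega⟩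
    obtain ⟨k, hk⟩ := hk
    refine ⟨k, fun β => decide (poolVal (code (lgc n)) (A hn) x (k, β)),
      fun β => by rw [decide_eq_true_eq], ?_⟩
    rw [polyFn_iff]
    refine ⟨c, fun j => ?_⟩
    rw [decide_eq_true_eq, ← hsel k j, hk]
    exact hc j j.isLt
  · rintro ⟨k, u, hu, hpu⟩
    rw [polyFn_iff] at hpu
    obtain ⟨c, hc⟩ := hpu
    refine ⟨(if k.1 then pr a B n else 0) + (k.2 : ℕ), ?_, c, fun i hi => ?_⟩
    · have := k.2.isLt
      split_ifs <;> omega
    · have h1 := (hu _).mp (hc ⟨i, hi⟩)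
      rw [← hsel k ⟨i, hi⟩] at h1
      exact h1

/-- After the restriction the language is the disjunction of `r'` copies. -/
theorem exists_restriction (a B d n q : ℕ) [Fact q.Prime] (hq : q = pq a B n)
    (hS : q ^ (2 * rt B n ^ a + 1) ≤ 2 ^ (n / d)) (hl2 : 2 ^ (lgc n - 1) ≤ n + 1)
    (hl : 2 ≤ lgc n) (hnl : n ≤ 2 ^ lgc n) (hN : 1 ≤ rt B n ^ (a + 1))
    (U : Finset (Fin n)) (r' : ℕ)
    (hr : r' * (4 * (rt B n ^ (a + 1) * q) * lgc n) ≤ U.card) :
    ∃ φ : Fin n → (Fin r' × (Fin (rt B n ^ (a + 1)) × ZMod q)) ⊕ Bool,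
      (∀ v, v ∉ U → ∃ c, φ v = .inr c) ∧
      ∀ y : Fin r' × (Fin (rt B n ^ (a + 1)) × ZMod q) → Bool,
        langL a B d (List.ofFn fun v => Sum.elim y id (φ v)) = true ↔
          OrCopies (polyFn q (rt B n ^ a) (rt B n ^ (a + 1))) y := by
  classical
  have hqp : q.Prime := Fact.out
  set N := rt B n ^ (a + 1) with hNdef
  have hpos : 0 < 4 * (N * q) * lgc n := by
    have := hqp.pos
    positivity
  have hprq : pr a B n = n / (4 * (N * q) * lgc n) := by
    unfold pr
    rw [← hq, ← hNdef]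
  have hn : pr a B n * (4 * (N * q) * lgc n) ≤ n := by
    rw [hprq]
    exact Nat.div_mul_le_self _ _
  have hrr : r' ≤ pr a B n := by
    rw [hprq, Nat.le_div_iff_mul_le hpos]
    refine hr.trans ((Finset.card_le_univ _).trans (by simp))
  have hcard : Fintype.card (Fin N × ZMod q) = N * q := by
    rw [Fintype.card_prod, Fintype.card_fin, ZMod.card]
  have : Nonempty (Fin N × ZMod q) := ⟨(⟨0, hN⟩, 0)⟩
  obtain ⟨φ, e, -, hφ, h⟩ := exists_pool_restriction hl (code (lgc n)) (code_injective hnl) (A hn)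
    (A_injective hn) U r' hrr (by rw [hcard]; exact hr)
  refine ⟨φ, hφ, fun y => ?_⟩
  rw [langL_iff_pool a B d n q hq hS hl2 hn]
  constructor
  · rintro ⟨k, u, hu, hgu⟩
    by_cases hi : ∃ j, e j = k
    · obtain ⟨j, rfl⟩ := hi
      refine ⟨j, ?_⟩
      have huy : u = fun b => y (j, b) := by
        funext b
        rw [Bool.eq_iff_iff, hu b, (h y).1 j b]
      rwa [huy] at hgu
    · have hu0 : u = fun _ => false := by
        funext b
        have h1 := (h y).2 k (fun j hj => hi ⟨j, hj⟩) b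
        rw [← hu b] at h1
        simpa using h1
      rw [hu0, polyFn_zero q _ N hN] at hgu
      exact absurd hgu Bool.false_ne_true
  · rintro ⟨j, hj⟩
    exact ⟨e j, fun b => y (j, b), fun b => ((h y).1 j b).symm, hj⟩

end Pool.Agent.LocE
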