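import Pool.Agent.NTR.AvgCirc
import Pool.Agent.NTR.FullDefs
import Pool.Agent.NegLim.CliqueAvg

/-!
# Average-case transfer on a set `U` of variables
-/

namespace Pool.Agent.LocE

open Pool.Agent.NegLim Pool.Agent.NTR Finset
open scoped BigOperators

/-- The substitution as literals. -/
def subLit {κ : Type} : κ ⊕ Bool → Lit κ
  | .inl k => .var k
  | .inr c => .const c

theorem subLit_val {κ : Type} (y : κ → Bool) (s : κ ⊕ Bool) :
    (subLit s).val y = Sum.elim y id s := by
  cases s <;> rfl

theorem sub_mono {κ : Type} {y z : κ → Bool} (h : y ≤ z) (s : κ ⊕ Bool) :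
    Sum.elim y id s ≤ Sum.elim z id s := by
  cases s with
  | inl k => exact h k
  | inr c => exact le_rfl

open Classical in
/-- **Average-case transfer on `U`.** If the variables outside `U` can be made constant and the
others be replaced by variables or constants such that `f` becomes the disjunction of `r` copies of
`g`, then there is a distribution on the inputs for which `f` is hard for circuits whose NOT gates
change their values at most `a` times on `U`. -/
theorem glue {ι β : Type} [Fintype ι] [DecidableEq ι] [Fintype β] {U : Finset ι} {r : ℕ}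
    (hr : 1 ≤ r) (g : (β → Bool) → Bool) (hg : Monotone g) (f : (ι → Bool) → Bool)
    (φ : ι → (Fin r × β) ⊕ Bool) (hφ : ∀ v, v ∉ U → ∃ c, φ v = .inr c)
    (hf : ∀ y : Fin r × β → Bool, f (fun v => Sum.elim y id (φ v)) = true ↔ OrCopies g y)
    (D₀ D₁ : (β → Bool) → ℝ) (h0 : ∀ u, 0 ≤ D₀ u) (h0s : ∑ u, D₀ u = 1)
    (h0z : ∀ u, D₀ u ≠ 0 → g u = false) (h1 : ∀ u, 0 ≤ D₁ u) (h1s : ∑ u, D₁ u = 1)
    (h1z : ∀ u, D₁ u ≠ 0 → g u = true) :
    ∃ μ : (ι → Bool) → ℝ, (∀ x, 0 ≤ μ x) ∧ ∑ x, μ x = 1 ∧
      ∀ (T s a : ℕ) (δ : ℝ),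
        (∀ (M : Circuit β) (o : Wire β), M.negs = 0 → M.size ≤ s + T →
          ∑ u with M.val u o = true, D₁ u ≤ ∑ u with M.val u o = true, D₀ u + δ) →
        ∀ (C : Circuit ι) (out : Fin T → Wire ι) (h : (Fin T → Bool) → Bool),
          C.size ≤ s → ChangesOn U C.notVals (a + 1) →
          ∑ x with h (fun i => C.val x (out i)) = f x, μ x
            ≤ 1 / 2 + δ / 2 + (T + 1) * (a + 1) / (2 * r) := by
  obtain ⟨μ', hμ0, hμ1, hμ⟩ := transfer_average g hg r hr D₀ D₁ h0 h0s h0z h1 h1s h1z
  have hpush : ∀ (P : (ι → Bool) → Prop) [DecidablePred P],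
      ∑ x with P x, ∑ y, μ' y * ip ((fun v => Sum.elim y id (φ v)) = x)
        = ∑ y, μ' y * ip (P fun v => Sum.elim y id (φ v)) := by
    intro P _
    rw [Finset.sum_comm]
    refine Finset.sum_congr rfl fun y _ => ?_
    rw [← Finset.mul_sum, sum_ip_eq]
  refine ⟨fun x => ∑ y, μ' y * ip ((fun v => Sum.elim y id (φ v)) = x), ?_, ?_, ?_⟩
  · intro x
    exact Finset.sum_nonneg fun y _ => mul_nonneg (hμ0 y) (ip_nonneg _)
  · have h2 := hpush (fun _ => True)
    rw [Finset.filter_true] at h2
    rw [h2]
    simp only [ip_true trivial, mul_one]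
    exact hμ1
  · intro T s a δ hδ C out h hs hC
    set σ : ι → Lit (Fin r × β) := fun v => subLit (φ v) with hσ
    have hσv : ∀ y : Fin r × β → Bool, (fun v => (σ v).val y) = fun v => Sum.elim y id (φ v) :=
      fun y => funext fun v => subLit_val y (φ v)
    have hflips : Circuit.FlipsAtMost (C.map (Gate.subst σ)) a := by
      intro x hx n
      have h1 := hC (fun k v => Sum.elim (x k) id (φ v))
        (fun i j hij v => sub_mono (hx hij) (φ v)) (by
          intro k v hv
          obtain ⟨c, hc⟩ := hφ v hv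
          simp only [hc, Sum.elim_inr]) n
      have h2 : {k | k < n ∧ Circuit.notVals C (fun v => Sum.elim (x k) id (φ v))
          ≠ Circuit.notVals C (fun v => Sum.elim (x (k + 1)) id (φ v))}
          = ↑((range n).filter (fun k => Circuit.notVals (C.map (Gate.subst σ)) (x k)
            ≠ Circuit.notVals (C.map (Gate.subst σ)) (x (k + 1)))) := by
        ext k
        simp only [Set.mem_ofPred_eq, coe_filter, mem_range, notVals_subst, hσv]
      rw [h2, Set.ncard_coe_finset] at h1
      omega
    have h2 := hμ T s a δ hδ (C.map (Gate.subst σ)) (fun i => (out i).subst σ) h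
      ((Circuit.subst_size σ C).le.trans hs) hflips
    refine le_trans (le_of_eq ?_) h2
    rw [hpush, Finset.sum_filter]
    refine Finset.sum_congr rfl fun y _ => ?_
    have h3 : (fun i => Circuit.val (C.map (Gate.subst σ)) y ((out i).subst σ))
        = fun i => Circuit.val C (fun v => Sum.elim y id (φ v)) (out i) := by
      funext i
      rw [Circuit.subst_val, hσv]
    rw [h3]
    have h4 : (h (fun i => Circuit.val C (fun v => Sum.elim y id (φ v)) (out i))
        = f fun v => Sum.elim y id (φ v)) ↔
        (h (fun i => Circuit.val C (fun v => Sum.elim y id (φ v)) (out i)) = true ↔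
          OrCopies g y) := by
      rw [← hf, Bool.eq_iff_iff]
    by_cases h5 : h (fun i => Circuit.val C (fun v => Sum.elim y id (φ v)) (out i))
        = f fun v => Sum.elim y id (φ v)
    · rw [ip_true h5, if_pos (h4.mp h5), mul_one]
    · rw [ip_false h5, if_neg (fun h6 => h5 (h4.mpr h6)), mul_zero]

end Pool.Agent.LocE
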