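import Pool.Agent.LocE.Lang
import Pool.Agent.NegLim.EFinal

set_option autoImplicit false

/-!
# The choice of the parameters
-/

namespace Pool.Agent.LocE

open Finset Pool.Agent.NegLim Pool.Agent.NegLim.Lang Pool.Agent.NegLim.NPL

/-- All inequalities between natural numbers, for `R` large. -/
lemma nat_numbers (a B n d R l q : ℕ) (ha : 2 * a + 4 ≤ B) (hd : 1 ≤ d) (hRB : R ^ B ≤ n)
    (hl : l = Nat.log 2 (n + 1) + 1) (hRl : 2 ^ 12 * l ^ 2 ≤ R) (hRd : d ≤ R)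
    (hqp : q.Prime) (hq1 : q ≤ 2 * R ^ (a + 1)) (hq2 : 2 * R ^ (a + 1) < 2 * q) :
    ∃ M k L : ℕ, 1 ≤ R ^ a ∧ 2 * R ^ a ≤ R ^ (a + 1) ∧ R ^ (a + 1) ≤ q ∧ 256 * (M + 1) ≤ q ∧
      2 * R ^ a < 2 ^ L ∧ (R ^ (a + 1) * q + 1) ^ (2 * R ^ a) * 4 ^ (R ^ a) ≤ 4 ^ k ∧
      2 * (L * k) ≤ M + 1 ∧ q ^ (2 * R ^ a + 1) ≤ 2 ^ (n / d) ∧
      8 * (R ^ (a + 1) * q) * l ≤ R ^ (2 * a + 3) ∧
      ∀ r ≤ n, 2 * r * q ^ (2 * R ^ a) ≤ 2 ^ (R ^ (a + 1)) := by
  have hl1 : 1 ≤ l := by omega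
  have hnl : n + 1 < 2 ^ l := by rw [hl]; exact Nat.lt_pow_succ_log_self (by norm_num) _
  have hl2 : l ≤ l ^ 2 := by
    calc l = l * 1 := (mul_one l).symm
      _ ≤ l * l := Nat.mul_le_mul_left l hl1
      _ = l ^ 2 := (sq l).symm
  have hRl' : 2 ^ 12 * l ≤ R := (Nat.mul_le_mul_left _ hl2).trans hRl
  have hR12 : 2 ^ 12 ≤ R := by
    calc 2 ^ 12 = 2 ^ 12 * 1 := (mul_one _).symm
      _ ≤ 2 ^ 12 * l := Nat.mul_le_mul_left _ hl1
      _ ≤ R := hRl'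
  have hRpos : 0 < R := by omega
  set N := R ^ (a + 1) with hN
  set w := R ^ a with hw
  have hwpos : 0 < w := by positivity
  have hNw : N = w * R := pow_succ R a
  have hNpos : 0 < N := by positivity
  have hNq : N < q := by omega
  have hRN : R ≤ N := by
    calc R = 1 * R := (one_mul R).symm
      _ ≤ w * R := Nat.mul_le_mul_right R hwpos
      _ = N := hNw.symm
  -- powers of R below n
  have hpow : ∀ j, j ≤ B → R ^ j ≤ n := fun j hj =>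
    (Nat.pow_le_pow_right hRpos hj).trans hRB
  have hNqR : N * q ≤ 2 * R ^ (2 * a + 2) := by
    calc N * q ≤ N * (2 * N) := Nat.mul_le_mul_left N hq1
      _ = 2 * R ^ (2 * a + 2) := by rw [hN]; ring
  have h2R : 2 * R ^ (2 * a + 2) ≤ R ^ (2 * a + 3) := by
    calc 2 * R ^ (2 * a + 2) ≤ R * R ^ (2 * a + 2) := Nat.mul_le_mul_right _ (by omega)
      _ = R ^ (2 * a + 3) := by ring
  have hNqn : N * q ≤ n := hNqR.trans (h2R.trans (hpow _ (by omega)))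
  have hqn : q ≤ n := by
    calc q = 1 * q := (one_mul q).symm
      _ ≤ N * q := Nat.mul_le_mul_right q hNpos
      _ ≤ n := hNqn
  have hq2l : q ≤ 2 ^ l := by omega
  set Q := q / 256 with hQ
  have hQ1 : 1 ≤ Q := by
    rw [hQ, Nat.le_div_iff_mul_le (by norm_num)]
    have h1 : 4096 ≤ R := le_trans (by norm_num) hR12
    clear hRl hR12 hRl'
    omega
  have hqQ : q ≤ 512 * Q := by
    have h1 : q < 256 * (Q + 1) := Nat.lt_mul_div_succ _ (by norm_num)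
    omega
  have hQq : 256 * Q ≤ q := Nat.mul_div_le _ _
  set L := Nat.log 2 (2 * w) + 1 with hL
  have hL2 : 2 * w < 2 ^ L := Nat.lt_pow_succ_log_self (by norm_num) _
  have h2wN : 2 * w ≤ N := by
    rw [hNw, mul_comm 2 w]
    exact Nat.mul_le_mul_left w (by omega)
  have hLl : L ≤ l := by
    have : Nat.log 2 (2 * w) ≤ Nat.log 2 (n + 1) := Nat.log_mono_right (by omega)
    omega
  set k := w * (l + 1) with hk
  have hLk : L * k ≤ 2 * (l ^ 2 * w) := by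
    calc L * k ≤ l * (w * (l + l)) := by
          apply Nat.mul_le_mul hLl
          exact Nat.mul_le_mul_left w (by omega)
      _ = 2 * (l ^ 2 * w) := by ring
  have hQ2 : 2 * (L * k) ≤ Q := by
    have h1 : 4096 * (l ^ 2 * w) ≤ N := by
      calc 4096 * (l ^ 2 * w) = w * (2 ^ 12 * l ^ 2) := by ring
        _ ≤ w * R := Nat.mul_le_mul_left w hRl
        _ = N := hNw.symm
    clear hRl hR12 hRl'
    omega
  have hlw : ∀ c, c ≤ 64 → c * (l * w) ≤ N := by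
    intro c hc
    calc c * (l * w) ≤ 2 ^ 12 * (l * w) := Nat.mul_le_mul_right _ (by omega)
      _ = w * (2 ^ 12 * l) := by ring
      _ ≤ w * R := Nat.mul_le_mul_left w hRl'
      _ = N := hNw.symm
  have hl_lw : l ≤ l * w := Nat.le_mul_of_pos_right l hwpos
  refine ⟨Q - 1, k, L, hwpos, h2wN, hNq.le, ?_, hL2, ?_, ?_, ?_, ?_, ?_⟩
  · have : Q - 1 + 1 = Q := by omega
    rw [this]; exact hQq
  · have e3 : (4 : ℕ) = 2 ^ 2 := by norm_num
    have h1 : N * q + 1 ≤ 2 ^ l := by omega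
    calc (N * q + 1) ^ (2 * w) * 4 ^ w ≤ (2 ^ l) ^ (2 * w) * 4 ^ w :=
          Nat.mul_le_mul_right _ (Nat.pow_le_pow_left h1 _)
      _ = 4 ^ k := by
          rw [e3, ← pow_mul, ← pow_mul, ← pow_mul, ← pow_add, hk]
          congr 1
          ring
  · have : Q - 1 + 1 = Q := by omega
    rw [this]; exact hQ2
  · calc q ^ (2 * w + 1) ≤ (2 ^ l) ^ (2 * w + 1) := Nat.pow_le_pow_left hq2l _
      _ = 2 ^ (l * (2 * w + 1)) := by rw [← pow_mul]
      _ ≤ 2 ^ (n / d) := by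
        apply Nat.pow_le_pow_right (by norm_num)
        rw [Nat.le_div_iff_mul_le (by omega)]
        calc l * (2 * w + 1) * d ≤ l * (2 * w + w) * R := by
              apply Nat.mul_le_mul _ hRd
              exact Nat.mul_le_mul_left l (by omega)
          _ = (3 * (l * w)) * R := by ring
          _ ≤ N * R := Nat.mul_le_mul_right R (hlw 3 (by norm_num))
          _ = R ^ (a + 2) := by rw [hN]; ring
          _ ≤ n := hpow _ (by omega)
  · calc 8 * (N * q) * l ≤ 8 * (2 * R ^ (2 * a + 2)) * l :=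
          Nat.mul_le_mul_right l (Nat.mul_le_mul_left 8 hNqR)
      _ = (16 * l) * R ^ (2 * a + 2) := by ring
      _ ≤ R * R ^ (2 * a + 2) := by
          apply Nat.mul_le_mul_right
          clear hRl hR12
          omega
      _ = R ^ (2 * a + 3) := by ring
  · intro r hr
    have h1 : r ≤ 2 ^ l := by omega
    calc 2 * r * q ^ (2 * w) ≤ 2 * 2 ^ l * (2 ^ l) ^ (2 * w) :=
          Nat.mul_le_mul (Nat.mul_le_mul_left 2 h1) (Nat.pow_le_pow_left hq2l _)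
      _ = 2 ^ (1 + l + l * (2 * w)) := by
          rw [pow_add, pow_add, pow_mul]; ring
      _ ≤ 2 ^ N := by
          apply Nat.pow_le_pow_right (by norm_num)
          have h2 := hlw 4 (by norm_num)
          have h3 : l * (2 * w) = 2 * (l * w) := by ring
          omega

theorem locE_numbers (δ ε : ℝ) (hδ : 0 < δ) (hε : 0 < ε) (h1 : 2 * δ + ε < 1) : ∃ a B : ℕ,
    ∀ d : ℕ, 1 ≤ d → ∃ n₀ : ℕ, ∀ n ≥ n₀, ∃ M k L : ℕ,
      (pq a B n).Prime ∧ 1 ≤ rt B n ^ a ∧ 2 * rt B n ^ a ≤ rt B n ^ (a + 1) ∧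
      rt B n ^ (a + 1) ≤ pq a B n ∧ 256 * (M + 1) ≤ pq a B n ∧ 2 * rt B n ^ a < 2 ^ L ∧
      (rt B n ^ (a + 1) * pq a B n + 1) ^ (2 * rt B n ^ a) * 4 ^ (rt B n ^ a) ≤ 4 ^ k ∧
      2 * (L * k) ≤ M + 1 ∧ pq a B n ^ (2 * rt B n ^ a + 1) ≤ 2 ^ (n / d) ∧
      2 ^ (lgc n - 1) ≤ n + 1 ∧ n < 2 ^ (lgc n) ∧ 2 ≤ lgc n ∧
      (8 * (rt B n ^ (a + 1) * pq a B n) * lgc n : ℝ) ≤ (n : ℝ) ^ (2 * δ + ε) ∧
      ∀ s r T : ℕ, (s : ℝ) ≤ 2 ^ ((n : ℝ) ^ δ) → r ≤ n → T ≤ r →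
        (r : ℝ) * (((s + T : ℕ) : ℝ) * (2 * (1 / 4) ^ (rt B n ^ a)) +
          (pq a B n : ℝ) ^ (2 * rt B n ^ a) * (1 / 2) ^ (rt B n ^ (a + 1))) ≤ 1 := by
  set B := ⌈5 / ε⌉₊ + 1 with hB
  set a := ⌊δ * B⌋₊ + 1 with ha
  have hεB : 5 < ε * B := by
    have h1 : 5 / ε ≤ (⌈5 / ε⌉₊ : ℝ) := Nat.le_ceil _
    have h2 : 5 ≤ ε * (⌈5 / ε⌉₊ : ℝ) := by
      rw [div_le_iff₀ hε] at h1
      linarith
    rw [hB]
    push_cast
    linarith
  have ha1 : δ * B < a := by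
    rw [ha]
    push_cast
    exact Nat.lt_floor_add_one _
  have ha2 : (a : ℝ) ≤ δ * B + 1 := by
    have h1 : (⌊δ * B⌋₊ : ℝ) ≤ δ * B := Nat.floor_le (by positivity)
    rw [ha]
    push_cast
    linarith
  have hB1 : 1 ≤ B := by omega
  have hB0 : (0 : ℝ) < B := by exact_mod_cast hB1
  have hγ : (2 * a + 3 : ℝ) ≤ (2 * δ + ε) * B := by nlinarith
  have haB : 2 * a + 4 ≤ B := by
    have h2 : 2 * (a : ℝ) + 3 < B := by nlinarith
    have h3 : 2 * a + 3 < B := by exact_mod_cast h2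
    omega
  refine ⟨a, B, fun d hd => ?_⟩
  set K := 2 ^ 12 + d + ⌈(((1 : ℕ) : ℝ) * 2 ^ B) ^ (1 / ((a : ℝ) - δ * B))⌉₊ with hK
  obtain ⟨n1, hn1⟩ := root_large B 1 K hB1 (le_refl 1)
  refine ⟨max n1 1, fun n hn => ?_⟩
  have hn1' : n1 ≤ n := (le_max_left _ _).trans hn
  have hn0 : 1 ≤ n := (le_max_right _ _).trans hn
  have hlarge := hn1 n hn1'
  rw [Nat.div_one] at hlarge
  obtain ⟨hRB, hRB2⟩ := rt_spec B n hB1
  set R := rt B n with hR
  set l := lgc n with hl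
  have hleq : l = Nat.log 2 (n + 1) + 1 := lgc_eq n
  rw [← hleq] at hlarge
  have hl1 : 1 ≤ l := by omega
  have hl2' : 1 ≤ l ^ 2 := Nat.one_le_pow _ _ hl1
  have hl2 : l ≤ l ^ 2 := by
    calc l = l * 1 := (mul_one l).symm
      _ ≤ l * l := Nat.mul_le_mul_left l hl1
      _ = l ^ 2 := (sq l).symm
  have hRK : K ≤ R := (Nat.le_mul_of_pos_right K hl2').trans hlarge
  have hRl : 2 ^ 12 * l ^ 2 ≤ R := by
    refine le_trans (Nat.mul_le_mul_right _ ?_) hlarge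
    rw [hK]
    omega
  have hR1 : 1 ≤ R := by
    have : 1 ≤ K := by rw [hK]; omega
    omega
  have hRd : d ≤ R := by
    refine le_trans ?_ hRK
    rw [hK]
    omega
  have hX2 : 2 ≤ 2 * R ^ (a + 1) := by
    have : 1 ≤ R ^ (a + 1) := Nat.one_le_pow _ _ hR1
    omega
  obtain ⟨hqp, hq1, hq2⟩ := gp_spec (2 * R ^ (a + 1)) hX2
  have hpq : pq a B n = gp (2 * R ^ (a + 1)) := rfl
  rw [hpq]
  set q := gp (2 * R ^ (a + 1)) with hq
  obtain ⟨M, k, L, c1, c2, c3, c4, c5, c6, c7, c8, c9, c10⟩ :=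
    nat_numbers a B n d R l q haB hd hRB hleq hRl hRd hqp hq1 hq2
  have hnl : n + 1 < 2 ^ l := by rw [hleq]; exact Nat.lt_pow_succ_log_self (by norm_num) _
  have hR0 : (0 : ℝ) < R := by exact_mod_cast hR1
  refine ⟨M, k, L, hqp, c1, c2, c3, c4, c5, c6, c7, c8, ?_, by omega, ?_, ?_, ?_⟩
  · have h2 : l - 1 = Nat.log 2 (n + 1) := by omega
    rw [h2]
    exact Nat.pow_log_le_self 2 (by omega)
  · have h2 : 1 ≤ Nat.log 2 (n + 1) := Nat.le_log_of_pow_le (by norm_num) (by omega)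
    omega
  · have h2 : (8 * ((R : ℝ) ^ (a + 1) * q) * l : ℝ) ≤ (R : ℝ) ^ (2 * a + 3) := by exact_mod_cast c9
    refine h2.trans ?_
    calc (R : ℝ) ^ (2 * a + 3) = (R : ℝ) ^ ((2 * a + 3 : ℕ) : ℝ) := by rw [Real.rpow_natCast]
      _ ≤ (R : ℝ) ^ ((2 * δ + ε) * B) := by
          apply Real.rpow_le_rpow_of_exponent_le (by exact_mod_cast hR1)
          push_cast
          exact hγ
      _ = ((R : ℝ) ^ B) ^ (2 * δ + ε) := by
          rw [← Real.rpow_natCast, ← Real.rpow_mul hR0.le]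
          congr 1
          ring
      _ ≤ (n : ℝ) ^ (2 * δ + ε) := by
          apply Real.rpow_le_rpow (by positivity) _ (by positivity)
          exact_mod_cast hRB
  · intro s r T hs hr hT
    have h2 : 4 * r * (s + T) ≤ 4 ^ (R ^ a) :=
      size_ok a B 1 n R l δ hδ (by linarith) hR1 ha1 (by rw [one_mul]; exact hRB2) (le_refl 1)
        (by
          have h4 : ⌈(((1 : ℕ) : ℝ) * 2 ^ B) ^ (1 / ((a : ℝ) - δ * B))⌉₊ ≤ R := by
            refine le_trans ?_ hRK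
            rw [hK]
            omega
          exact (Nat.le_ceil _).trans (by exact_mod_cast h4))
        (by
          have h5 : 2 ^ 12 * l ≤ R := (Nat.mul_le_mul_left _ hl2).trans hRl
          omega)
        (by omega) s r T hs hT hr
    have h3 := c10 r hr
    have h4 : (4 : ℝ) * r * (s + T) ≤ 4 ^ (R ^ a) := by exact_mod_cast h2
    have h5 : (2 : ℝ) * r * (q : ℝ) ^ (2 * R ^ a) ≤ 2 ^ (R ^ (a + 1)) := by exact_mod_cast h3
    have e1 : (r : ℝ) * (((s + T : ℕ) : ℝ) * (2 * (1 / 4) ^ (R ^ a))) ≤ 1 / 2 := by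
      have h6 : ((1 : ℝ) / 4) ^ (R ^ a) = 1 / 4 ^ (R ^ a) := by rw [div_pow, one_pow]
      have h7 : (0 : ℝ) < 4 ^ (R ^ a) := by positivity
      rw [h6]
      have h8 : (r : ℝ) * (((s + T : ℕ) : ℝ) * (2 * (1 / 4 ^ (R ^ a)))) =
          (2 * r * (s + T)) / 4 ^ (R ^ a) := by
        push_cast
        field_simp
      rw [h8, div_le_iff₀ h7]
      linarith
    have e2 : (r : ℝ) * ((q : ℝ) ^ (2 * R ^ a) * (1 / 2) ^ (R ^ (a + 1))) ≤ 1 / 2 := by
      have h6 : ((1 : ℝ) / 2) ^ (R ^ (a + 1)) = 1 / 2 ^ (R ^ (a + 1)) := by rw [div_pow, one_pow]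
      have h7 : (0 : ℝ) < 2 ^ (R ^ (a + 1)) := by positivity
      rw [h6]
      have h8 : (r : ℝ) * ((q : ℝ) ^ (2 * R ^ a) * (1 / 2 ^ (R ^ (a + 1)))) =
          (r * (q : ℝ) ^ (2 * R ^ a)) / 2 ^ (R ^ (a + 1)) := by
        field_simp
      rw [h8, div_le_iff₀ h7]
      linarith
    calc (r : ℝ) * (((s + T : ℕ) : ℝ) * (2 * (1 / 4) ^ (R ^ a)) +
          (q : ℝ) ^ (2 * R ^ a) * (1 / 2) ^ (R ^ (a + 1)))
        = (r : ℝ) * (((s + T : ℕ) : ℝ) * (2 * (1 / 4) ^ (R ^ a))) +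
          (r : ℝ) * ((q : ℝ) ^ (2 * R ^ a) * (1 / 2) ^ (R ^ (a + 1))) := by ring
      _ ≤ 1 := by linarith

end Pool.Agent.LocE
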