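import Pool.Agent.LocE.Addr
import Pool.Agent.LocE.Glue
import Pool.Agent.LocE.Num

set_option autoImplicit false

/-!
# The main theorem
-/

namespace Pool.Agent.LocE

open Finset Pool.Agent.NegLim Pool.Agent.NegLim.Lang Pool.Agent.NegLim.NPL Pool.Agent.NTR
  Pool.Agent.PolyTime
open scoped BigOperators

lemma sum_filter_le_one {X : Type} [Fintype X] (μ : X → ℝ) (h0 : ∀ x, 0 ≤ μ x)
    (h1 : ∑ x, μ x = 1) (p : X → Prop) [DecidablePred p] :
    ∑ x ∈ univ.filter p, μ x ≤ 1 := by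
  rw [← h1]
  exact sum_le_sum_of_subset_of_nonneg (filter_subset _ _) fun x _ _ => h0 x

lemma exists_prob (n : ℕ) : ∃ μ : (Fin n → Bool) → ℝ, (∀ x, 0 ≤ μ x) ∧ ∑ x, μ x = 1 := by
  refine ⟨fun x => if x = fun _ => true then 1 else 0, fun x => ?_, ?_⟩
  · show (0 : ℝ) ≤ if x = fun _ => true then 1 else 0
    by_cases h : x = fun _ => true
    · rw [if_pos h]; norm_num
    · rw [if_neg h]
  · rw [sum_ite_eq']
    rw [if_pos (mem_univ _)]

open Classical in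
/-- `glue` for a type of block variables with decidable equality. -/
theorem glue_dec {ι β : Type} [Fintype ι] [DecidableEq ι] [Fintype β] [dβ : DecidableEq β]
    {U : Finset ι} {r : ℕ}
    (hr : 1 ≤ r) (g : (β → Bool) → Bool) (hg : Monotone g) (f : (ι → Bool) → Bool)
    (φ : ι → (Fin r × β) ⊕ Bool) (hφ : ∀ v, v ∉ U → ∃ c, φ v = .inr c)
    (hf : ∀ y : Fin r × β → Bool, f (fun v => Sum.elim y id (φ v)) = true ↔ OrCopies g y)
    (D₀ D₁ : (β → Bool) → ℝ) (h0 : ∀ u, 0 ≤ D₀ u) (h0s : ∑ u, D₀ u = 1)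
    (h0z : ∀ u, D₀ u ≠ 0 → g u = false) (h1 : ∀ u, 0 ≤ D₁ u) (h1s : ∑ u, D₁ u = 1)
    (h1z : ∀ u, D₁ u ≠ 0 → g u = true) (s₀ : ℕ) (δ : ℝ)
    (hD : ∀ (M : Circuit β) (o : Wire β), M.negs = 0 → M.size ≤ s₀ →
          ∑ u with M.val u o = true, D₁ u ≤ ∑ u with M.val u o = true, D₀ u + δ) :
    ∃ μ : (ι → Bool) → ℝ, (∀ x, 0 ≤ μ x) ∧ ∑ x, μ x = 1 ∧
      ∀ (T b : ℕ) (C : Circuit ι) (out : Fin T → Wire ι) (h : (Fin T → Bool) → Bool),
          C.size + T ≤ s₀ → ChangesOn U C.notVals (b + 1) →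
          ∑ x with h (fun i => C.val x (out i)) = f x, μ x
            ≤ 1 / 2 + δ / 2 + (T + 1) * (b + 1) / (2 * r) := by
  have h : dβ = fun a b => Classical.propDecidable (a = b) := Subsingleton.elim _ _
  subst h
  obtain ⟨μ, hμ0, hμ1, hμ⟩ := glue hr g hg f φ hφ hf D₀ D₁ h0 h0s h0z h1 h1s h1z
  refine ⟨μ, hμ0, hμ1, fun T b C out h hs hC => ?_⟩
  exact hμ T C.size b δ (fun M o hM hsz => hD M o hM (hsz.trans hs)) C out h le_rfl hC

open Classical in
/-- One length and one set `U`. -/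
theorem one_length (a B d n q M k L r' s₀ : ℕ) [Fact q.Prime] (hq : q = pq a B n)
    (hw : 1 ≤ rt B n ^ a) (h2w : 2 * rt B n ^ a ≤ rt B n ^ (a + 1))
    (hNq : rt B n ^ (a + 1) ≤ q) (hM : 256 * (M + 1) ≤ q) (hL : 2 * rt B n ^ a < 2 ^ L)
    (hk : (rt B n ^ (a + 1) * q + 1) ^ (2 * rt B n ^ a) * 4 ^ (rt B n ^ a) ≤ 4 ^ k)
    (hLk : 2 * (L * k) ≤ M + 1) (hS : q ^ (2 * rt B n ^ a + 1) ≤ 2 ^ (n / d))
    (hl2 : 2 ^ (lgc n - 1) ≤ n + 1) (hnl : n ≤ 2 ^ lgc n) (hl : 2 ≤ lgc n)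
    (U : Finset (Fin n)) (hr1 : 1 ≤ r')
    (hr : r' * (4 * (rt B n ^ (a + 1) * q) * lgc n) ≤ U.card) :
    ∃ μ : (Fin n → Bool) → ℝ, (∀ x, 0 ≤ μ x) ∧ ∑ x, μ x = 1 ∧
      ∀ (T b : ℕ) (C : Circuit (Fin n)) (out : Fin T → Wire (Fin n))
        (g : (Fin T → Bool) → Bool), C.size + T ≤ s₀ → ChangesOn U C.notVals (b + 1) →
        ∑ x with g (fun i => C.val x (out i)) = langL a B d (List.ofFn x), μ x
          ≤ 1 / 2 + ((s₀ : ℝ) * (2 * (1 / 4) ^ (rt B n ^ a))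
            + (q : ℝ) ^ (2 * rt B n ^ a) * (1 / 2) ^ (rt B n ^ (a + 1))) / 2
            + (T + 1) * (b + 1) / (2 * r') := by
  have hN : 1 ≤ rt B n ^ (a + 1) := by omega
  obtain ⟨φ, hφ, hφf⟩ := exists_restriction a B d n q hq hS hl2 hl hnl hN U r' hr
  obtain ⟨D₀, D₁, h0, h0s, h0z, h1, h1s, h1z, hD⟩ :=
    poly_block (rt B n ^ (a + 1)) (rt B n ^ a) M L k q s₀ hw h2w hNq hM hL hk hLk
  exact glue_dec hr1 (polyFn q (rt B n ^ a) (rt B n ^ (a + 1)))
    (polyFn_mono q _ _) (fun x => langL a B d (List.ofFn x)) φ hφ hφf D₀ D₁ h0 h0s h0z h1 h1s h1z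
    s₀ _ hD

open Classical in
/-- **Few flips on a set of variables, average case.** -/
theorem main (δ ε : ℝ) (hδ : 0 < δ) (hε : 0 < ε) :
    ∃ L : List Bool → Bool, (∃ c : ℕ, DecidableInTime L (fun n => c * 2 ^ n)) ∧
      (∀ n : ℕ, Monotone fun x : Fin n → Bool => L (List.ofFn x)) ∧
      ∃ n₀ : ℕ, ∀ n ≥ n₀, ∀ U : Finset (Fin n), U.Nonempty →
        ∃ μ : (Fin n → Bool) → ℝ, (∀ x, 0 ≤ μ x) ∧ ∑ x, μ x = 1 ∧
          ∀ (T b : ℕ) (C : Circuit (Fin n)) (out : Fin T → Wire (Fin n))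
            (g : (Fin T → Bool) → Bool),
            (C.size : ℝ) ≤ 2 ^ ((n : ℝ) ^ δ) → ChangesOn U C.notVals (b + 1) →
            ∑ x with g (fun i => C.val x (out i)) = L (List.ofFn x), μ x
              ≤ 1 / 2 + (T + 1) * (b + 1) * (n : ℝ) ^ (2 * δ + ε) / U.card := by
  -- if the bound is at least `1` there is nothing to do
  have htriv : ∀ (n : ℕ) (L : List Bool → Bool) (U : Finset (Fin n)), U.Nonempty →
      (U.card : ℝ) ≤ (n : ℝ) ^ (2 * δ + ε) →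
      ∃ μ : (Fin n → Bool) → ℝ, (∀ x, 0 ≤ μ x) ∧ ∑ x, μ x = 1 ∧
          ∀ (T b : ℕ) (C : Circuit (Fin n)) (out : Fin T → Wire (Fin n))
            (g : (Fin T → Bool) → Bool),
            (C.size : ℝ) ≤ 2 ^ ((n : ℝ) ^ δ) → ChangesOn U C.notVals (b + 1) →
            ∑ x with g (fun i => C.val x (out i)) = L (List.ofFn x), μ x
              ≤ 1 / 2 + (T + 1) * (b + 1) * (n : ℝ) ^ (2 * δ + ε) / U.card := by
    intro n L U hU hUn
    obtain ⟨μ, hμ0, hμ1⟩ := exists_prob n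
    refine ⟨μ, hμ0, hμ1, fun T b C out g _ _ => ?_⟩
    refine (sum_filter_le_one μ hμ0 hμ1 _).trans ?_
    have hu : (0 : ℝ) < U.card := by exact_mod_cast hU.card_pos
    have h1 : (1 : ℝ) ≤ (n : ℝ) ^ (2 * δ + ε) / U.card := by rwa [le_div_iff₀ hu, one_mul]
    have h2 : (1 : ℝ) ≤ ((T : ℝ) + 1) * (b + 1) := by
      have h3 : (0 : ℝ) ≤ T := Nat.cast_nonneg T
      have h4 : (0 : ℝ) ≤ b := Nat.cast_nonneg b
      nlinarith
    have h3 : (1 : ℝ) ≤ ((T : ℝ) + 1) * (b + 1) * ((n : ℝ) ^ (2 * δ + ε) / U.card) :=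
      one_le_mul_of_one_le_of_one_le h2 h1
    rw [mul_div_assoc]
    linarith
  rcases le_or_gt 1 (2 * δ + ε) with hcase | hcase
  · obtain ⟨d, hd1, c, hc⟩ := langL_time 1 1
    refine ⟨_, ⟨c, hc⟩, langL_mono 1 1 d, 1, fun n hn U hU => htriv n _ U hU ?_⟩
    have h1 : (U.card : ℝ) ≤ n := by
      exact_mod_cast (Finset.card_le_univ U).trans (by simp)
    refine h1.trans ?_
    calc (n : ℝ) = (n : ℝ) ^ (1 : ℝ) := (Real.rpow_one _).symm
      _ ≤ (n : ℝ) ^ (2 * δ + ε) :=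
          Real.rpow_le_rpow_of_exponent_le (by exact_mod_cast hn) hcase
  · obtain ⟨a, B, hnum⟩ := locE_numbers δ ε hδ hε hcase
    obtain ⟨d, hd1, c, hc⟩ := langL_time a B
    obtain ⟨n₀, hn₀⟩ := hnum d hd1
    refine ⟨_, ⟨c, hc⟩, langL_mono a B d, n₀, fun n hn U hU => ?_⟩
    obtain ⟨M, k, L, hqp, hw, h2w, hNq, hM, hL, hk, hLk, hS, hl2, hnl, hl, hadv, herr⟩ := hn₀ n hn
    have : Fact (pq a B n).Prime := ⟨hqp⟩
    have hu : (0 : ℝ) < U.card := by exact_mod_cast hU.card_pos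
    set N := rt B n ^ (a + 1) with hN
    set q := pq a B n with hq
    set D := 4 * (N * q) * lgc n with hD
    have hadv' : (2 : ℝ) * D ≤ (n : ℝ) ^ (2 * δ + ε) := by
      refine le_trans (le_of_eq ?_) hadv
      rw [hD, hN]
      push_cast
      ring
    have hN1 : 1 ≤ N := by omega
    have hDpos : 0 < D := by
      rw [hD]
      have := hqp.pos
      positivity
    rcases lt_or_ge U.card D with hUD | hUD
    · refine htriv n _ U hU ?_
      have h1 : (U.card : ℝ) ≤ D := by exact_mod_cast hUD.le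
      have h2 : (0 : ℝ) ≤ D := Nat.cast_nonneg D
      linarith
    · set r' := U.card / D with hr'
      have hr1 : 1 ≤ r' := (Nat.one_le_div_iff hDpos).mpr hUD
      have hrU : r' * D ≤ U.card := Nat.div_mul_le_self _ _
      have hrn : r' ≤ n := by
        have h1 : U.card ≤ n := (Finset.card_le_univ U).trans (by simp)
        exact (Nat.div_le_self _ _).trans h1
      have hUr : U.card ≤ r' * (2 * D) := by
        have h1 : U.card < D * (U.card / D + 1) := Nat.lt_mul_div_succ _ hDpos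
        have h2 : D * (U.card / D + 1) ≤ D * (2 * r') := Nat.mul_le_mul_left _ (by omega)
        calc U.card ≤ D * (2 * r') := (h1.trans_le h2).le
          _ = r' * (2 * D) := by ring
      have hr0 : (0 : ℝ) < r' := by exact_mod_cast hr1
      have hinv : (1 : ℝ) / r' ≤ (n : ℝ) ^ (2 * δ + ε) / U.card := by
        rw [div_le_div_iff₀ hr0 hu]
        have h1 : (U.card : ℝ) ≤ r' * (2 * D) := by exact_mod_cast hUr
        have h2 : (r' : ℝ) * (2 * D) ≤ r' * (n : ℝ) ^ (2 * δ + ε) :=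
          mul_le_mul_of_nonneg_left hadv' hr0.le
        linarith
      set s₁ := ⌊(2 : ℝ) ^ ((n : ℝ) ^ δ)⌋₊ with hs₁
      obtain ⟨μ, hμ0, hμ1, hμ⟩ := one_length a B d n q M k L r' (s₁ + n) hq hw h2w hNq hM hL hk hLk
        hS hl2 hnl.le hl U hr1 hrU
      have hs₁' : (s₁ : ℝ) ≤ 2 ^ ((n : ℝ) ^ δ) := Nat.floor_le (by positivity)
      have he := herr s₁ n n hs₁' le_rfl le_rfl
      set e : ℝ := ((s₁ + n : ℕ) : ℝ) * (2 * (1 / 4) ^ (rt B n ^ a))
          + (q : ℝ) ^ (2 * rt B n ^ a) * (1 / 2) ^ N with hedef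
      have he0 : 0 ≤ e := by positivity
      have he' : e ≤ 1 / r' := by
        rw [le_div_iff₀ hr0]
        have h1 : (r' : ℝ) ≤ n := by exact_mod_cast hrn
        nlinarith
      refine ⟨μ, hμ0, hμ1, fun T b C out g hsz hC => ?_⟩
      have hT0 : (0 : ℝ) ≤ T := Nat.cast_nonneg T
      have hb0 : (0 : ℝ) ≤ b := Nat.cast_nonneg b
      have hP : (1 : ℝ) ≤ ((T : ℝ) + 1) * (b + 1) := by nlinarith
      have hfin : ((T : ℝ) + 1) * (b + 1) * (1 / r') ≤
          (T + 1) * (b + 1) * (n : ℝ) ^ (2 * δ + ε) / U.card := by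
        rw [mul_div_assoc]
        exact mul_le_mul_of_nonneg_left hinv (by positivity)
      rcases le_or_gt T n with hTn | hTn
      · have hsz' : C.size ≤ s₁ := Nat.le_floor hsz
        refine (hμ T b C out g (by omega) hC).trans ?_
        have h1 : ((T : ℝ) + 1) * (b + 1) / (2 * r') = ((T : ℝ) + 1) * (b + 1) * (1 / r') / 2 := by
          field_simp
        have h2 : (1 : ℝ) / r' ≤ ((T : ℝ) + 1) * (b + 1) * (1 / r') :=
          le_mul_of_one_le_left (by positivity) hP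
        rw [h1]
        linarith
      · refine (sum_filter_le_one μ hμ0 hμ1 _).trans ?_
        have h1 : (1 : ℝ) ≤ ((T : ℝ) + 1) * (b + 1) * (1 / r') := by
          rw [mul_one_div, le_div_iff₀ hr0, one_mul]
          have h2 : (r' : ℝ) ≤ T := by exact_mod_cast hrn.trans hTn.le
          nlinarith
        linarith

end Pool.Agent.LocE
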