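import Pool.Agent.NegLim.ExpTime

/-!
# Padding of a word of length `n` by `2 ^ (n / d)` symbols, and languages decided in time `O(2 ^ n)`
-/

namespace Pool.Agent.LocE

open Turing Function Pool.Agent.PolyTime Pool.Agent.NegLim Pool.Agent.NegLim.Lang

/-- The padded word. -/
def padW (m : ℕ) (x : List Bool) : List Bool := List.replicate (2 ^ m) true ++ false :: x

/-- Double stack 3 for every leading `true`, then move the rest to stack 2. -/
def loopQ : Prog := .loop 0 (.ite 0 (.seq (.pop 0) dbl) (.seq (.pop 0) (moveD 0 2)) .skip)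

theorem loopQ_exec (x : List Bool) : ∀ (m e : ℕ) (s : St),
    s 0 = List.replicate m true ++ false :: x → s 3 = un e → s 4 = [] → s 5 = [] → s 2 = [] →
    Exec loopQ s (update (update (update s 0 []) 2 x.reverse) 3 (un (2 ^ m * e)))
      (10 * ((2 ^ m - 1) * e) + 7 * m + 4 * x.length + 6)
  | 0, e, s, h0, h3, h4, h5, h2 => by
      have e1 := Exec.pop 0 s
      rw [h0] at e1
      have e2 := moveD_exec (k := 0) (k' := 2) (by omega) x (update s 0 x) (by simp)
      rw [update_of_ne (by omega : (2 : ℕ) ≠ 0), h2, List.append_nil] at e2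
      have e3 : Exec (.ite 0 (.seq (.pop 0) dbl) (.seq (.pop 0) (moveD 0 2)) .skip) s _ _ :=
        Exec.ite_false (by rw [h0]; rfl) (e1.seq e2)
      have e4 := Exec.loop_cons (by rw [h0]; simp) e3 (Exec.loop_nil (p := .ite 0 (.seq (.pop 0) dbl)
        (.seq (.pop 0) (moveD 0 2)) .skip) (by simp))
      refine (e4.of_eq ?_).mono (by omega)
      funext j
      by_cases hj3 : j = 3
      · subst hj3; simp [h3]
      · by_cases hj2 : j = 2
        · subst hj2; simp
        · by_cases hj0 : j = 0
          · subst hj0; simp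
          · simp [hj3, hj2, hj0]
  | m + 1, e, s, h0, h3, h4, h5, h2 => by
      have e1 := Exec.pop 0 s
      rw [h0, List.replicate_succ, List.cons_append, List.tail_cons] at e1
      have e2 := dbl_exec e (update s 0 (List.replicate m true ++ false :: x)) (by simp [h3])
        (by simp [h4]) (by simp [h5])
      have e3 : Exec (.ite 0 (.seq (.pop 0) dbl) (.seq (.pop 0) (moveD 0 2)) .skip) s _ _ :=
        Exec.ite_true (by rw [h0]; rfl) (e1.seq e2)
      have e4 := loopQ_exec x m (2 * e)
        (update (update s 0 (List.replicate m true ++ false :: x)) 3 (un (2 * e)))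
        (by simp) (by simp) (by simp [h4]) (by simp [h5]) (by simp [h2])
      have e5 := Exec.loop_cons (by rw [h0]; simp) e3 e4
      refine (e5.of_eq ?_).mono ?_
      · funext j
        by_cases hj3 : j = 3
        · subst hj3
          simp only [update_self]
          congr 1
          ring
        · by_cases hj2 : j = 2
          · subst hj2; simp
          · by_cases hj0 : j = 0
            · subst hj0; simp
            · simp [hj3, hj2, hj0]
      · have hP : 1 ≤ 2 ^ m := Nat.one_le_two_pow
        obtain ⟨Q, hQ⟩ := Nat.exists_eq_add_of_le hP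
        have h6 : 2 ^ m - 1 = Q := by omega
        have h7 : 2 ^ (m + 1) - 1 = 2 * Q + 1 := by rw [pow_succ]; omega
        rw [h6, h7]
        have h8 : Q * (2 * e) = 2 * (Q * e) := by ring
        have h9 : (2 * Q + 1) * e = 2 * (Q * e) + e := by ring
        rw [h8, h9]
        omega

/-- The padding program. -/
def padQ : Prog := .seq (.push 3 true) (.seq loopQ (.seq (moveD 2 1)
  (.seq (.push 1 false) (moveU 3 1))))

theorem padQ_exec (m : ℕ) (x : List Bool) :
    Exec padQ (Prog.inSt (List.replicate m true ++ false :: x)) (Prog.outSt (padW m x))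
      (13 * 2 ^ m + 7 * m + 8 * x.length + 12) := by
  set z := List.replicate m true ++ false :: x with hz
  have e1 := Exec.push 3 true (Prog.inSt z)
  have h3 : Prog.inSt z 3 = [] := by simp [Prog.inSt]
  rw [h3] at e1
  have e2 := loopQ_exec x m 1 (update (Prog.inSt z) 3 [true]) (by simp [Prog.inSt, hz]) (by simp)
    (by simp [Prog.inSt]) (by simp [Prog.inSt]) (by simp [Prog.inSt])
  rw [mul_one, mul_one] at e2
  set s2 : St := update (update (update (update (Prog.inSt z) 3 [true]) 0 []) 2 x.reverse) 3
    (un (2 ^ m)) with hs2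
  have e3 := moveD_exec (k := 2) (k' := 1) (by omega) x.reverse s2 (by simp [hs2])
  have h1 : s2 1 = [] := by simp [hs2, Prog.inSt]
  rw [List.reverse_reverse, h1, List.append_nil, List.length_reverse] at e3
  set s3 : St := update (update s2 2 []) 1 x with hs3
  have e4 := Exec.push 1 false s3
  have h13 : s3 1 = x := by simp [hs3]
  rw [h13] at e4
  set s4 : St := update s3 1 (false :: x) with hs4
  have e5 := moveU_exec (k := 3) (k' := 1) (by omega) (2 ^ m) s4
    (by simp [hs4, hs3, hs2])
  have h14 : s4 1 = false :: x := by simp [hs4]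
  rw [h14] at e5
  refine ((e1.seq (e2.seq (e3.seq (e4.seq e5)))).of_eq ?_).mono ?_
  · funext j
    by_cases hj1 : j = 1
    · subst hj1
      simp [Prog.outSt, padW]
    · by_cases hj3 : j = 3
      · subst hj3
        simp [Prog.outSt]
      · by_cases hj2 : j = 2
        · subst hj2; simp [Prog.outSt, hs4, hs3]
        · by_cases hj0 : j = 0
          · subst hj0; simp [Prog.outSt, hs4, hs3, hs2]
          · simp [Prog.outSt, hs4, hs3, hs2, Prog.inSt, hj1, hj3, hj2, hj0]
  · have hP : 1 ≤ 2 ^ m := Nat.one_le_two_pow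
    omega

/-- Write `n / d` in unary in front of the word. -/
lemma pre_polyTime (d : ℕ) : Nonempty (TM2ComputableInPolyTime (id : List Bool → List Bool)
    (id : List Bool → List Bool)
    (fun x : List Bool => List.replicate (x.length / d) true ++ false :: x)) := by
  apply PFBits.polyTime
  refine ⟨fun x => x.length / d + 1 + x.length,
    fun x i => if i < x.length / d then 1 else
      if i < x.length / d + 1 then 0 else (x.getD (i - (x.length / d + 1)) false).toNat,
    ((PF.len.div (PF.const d)).add (PF.const 1)).add PF.len,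
    PF.ite (PD.lt PF.snd (PF.len.div (PF.const d))) (PF.const 1)
      (PF.ite (PD.lt PF.snd ((PF.len.div (PF.const d)).add (PF.const 1))) (PF.const 0)
        (PF.inp (PF.snd.sub ((PF.len.div (PF.const d)).add (PF.const 1))))), ?_⟩
  intro x
  apply List.ext_getElem
  · simp only [List.length_append, List.length_replicate, List.length_cons, List.length_map,
      List.length_range]
    omega
  · intro i h1 h2
    simp only [List.length_append, List.length_replicate, List.length_cons] at h1
    simp only [List.getElem_map, List.getElem_range]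
    by_cases hi : i < x.length / d
    · rw [List.getElem_append_left (by simpa using hi)]
      simp [hi]
    · rw [List.getElem_append_right (by simpa using hi)]
      rcases Nat.lt_or_ge i (x.length / d + 1) with hi2 | hi2
      · have e : i = x.length / d := by omega
        subst e
        simp
      · have e : i - (List.replicate (x.length / d) true).length
            = (i - (x.length / d + 1)) + 1 := by
          rw [List.length_replicate]; omega
        simp only [e, List.getElem_cons_succ]
        rw [if_neg hi, if_neg (by omega), List.getD_eq_getElem _ _ (by omega)]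
        cases x[i - (x.length / d + 1)] <;> simp

/-- A monomial bound for a polynomial. -/
lemma poly_bound (P : Polynomial ℕ) : ∃ C e : ℕ, ∀ n, 1 ≤ n → P.eval n ≤ C * n ^ e := by
  refine ⟨∑ i ∈ Finset.range (P.natDegree + 1), P.coeff i, P.natDegree, ?_⟩
  intro n hn
  rw [Polynomial.eval_eq_sum_range, Finset.sum_mul]
  refine Finset.sum_le_sum fun i hi => ?_
  apply Nat.mul_le_mul_left
  exact Nat.pow_le_pow_right hn (by rw [Finset.mem_range] at hi; omega)

/-- A predicate decided in polynomial time on the padded words is decided in time `O(2 ^ n)` for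
a suitable amount of padding. -/
theorem decidable_of_padded (Q : List Bool → Bool)
    (hQ : Nonempty (TM2ComputableInPolyTime (id : List Bool → List Bool)
      (id : List Bool → List Bool) (fun y => [Q y]))) :
    ∃ d : ℕ, 1 ≤ d ∧ ∃ c : ℕ,
      DecidableInTime (fun x => Q (padW (x.length / d) x)) (fun n => c * 2 ^ n) := by
  obtain ⟨P⟩ := hQ
  let M3 : TM2ComputableAux Bool Bool :=
    { tm := P.tm, inputAlphabet := P.inputAlphabet, outputAlphabet := P.outputAlphabet }
  obtain ⟨C, e, hCe⟩ := poly_bound P.time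
  set d := 2 * e + 1 with hd
  obtain ⟨P1⟩ := pre_polyTime d
  let M1 : TM2ComputableAux Bool Bool :=
    { tm := P1.tm, inputAlphabet := P1.inputAlphabet, outputAlphabet := P1.outputAlphabet }
  obtain ⟨C1, e1, hCe1⟩ := poly_bound P1.time
  obtain ⟨C2, hC2⟩ := pow_le_two_pow e1
  obtain ⟨C3, hC3⟩ := pow_le_two_pow (2 * e)
  set K := 4 ^ e * (2 * C3) + 1 with hK
  refine ⟨d, by omega, C1 * C2 * 2 + 100 + C * K,
    compAux M1 (compAux (auxOf padQ) M3), fun x => ?_⟩
  set n := x.length with hn
  set m := n / d with hm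
  have hz : OutIn M1 x (List.replicate m true ++ false :: x) (P1.time.eval x.length) :=
    ⟨P1.outputsFun x⟩
  obtain ⟨t, ht, hrun⟩ := padQ_exec m x
  have hpad : OutIn (auxOf padQ) (List.replicate m true ++ false :: x) (padW m x)
      (13 * 2 ^ m + 7 * m + 8 * x.length + 12 + 1) :=
    (outIn_of_run padQ hrun).mono (by omega)
  have hy : OutIn M3 (padW m x) [Q (padW m x)] (P.time.eval (padW m x).length) :=
    ⟨P.outputsFun (padW m x)⟩
  have hcomp := OutIn.comp hz (OutIn.comp hpad hy)
  refine (hcomp.mono ?_ : OutIn _ x [Q (padW m x)] _)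
  have hlt : n < 2 ^ n := Nat.lt_two_pow_self
  have hmn : m ≤ n := Nat.div_le_self _ _
  have hmp : 2 ^ m ≤ 2 ^ n := Nat.pow_le_pow_right (by norm_num) hmn
  have hlen1 : (List.replicate m true ++ false :: x).length = m + (n + 1) := by simp [hn]
  have hlen2 : (padW m x).length = 2 ^ m + (n + 1) := by simp [padW, hn]
  have h1 : P1.time.eval n ≤ C1 * C2 * 2 * 2 ^ n := by
    calc P1.time.eval n ≤ P1.time.eval (n + 1) := PolyTime.eval_mono _ (Nat.le_succ n)
      _ ≤ C1 * (n + 1) ^ e1 := hCe1 _ (by omega)
      _ ≤ C1 * (C2 * 2 ^ (n + 1)) := Nat.mul_le_mul_left _ (hC2 (n + 1))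
      _ = C1 * C2 * 2 * 2 ^ n := by ring
  have h2 : P.time.eval (padW m x).length ≤ C * K * 2 ^ n := by
    have h3 : (padW m x).length ≤ 2 ^ m * (2 * (n + 1)) := by
      rw [hlen2]
      have : 1 ≤ 2 ^ m := Nat.one_le_two_pow
      nlinarith
    have h4 : (2 * (n + 1)) ^ e * (2 ^ m) ^ e ≤ K * 2 ^ n := by
      have h5 : m * (2 * e) ≤ n := by
        calc m * (2 * e) ≤ m * d := Nat.mul_le_mul_left _ (by omega)
          _ ≤ n := Nat.div_mul_le_self _ _
      have h6 : ((2 * (n + 1)) ^ e * (2 ^ m) ^ e) ^ 2 ≤ (K * 2 ^ n) ^ 2 := by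
        have e1 : ((2 * (n + 1)) ^ e * (2 ^ m) ^ e) ^ 2
            = 4 ^ e * (n + 1) ^ (2 * e) * 2 ^ (m * (2 * e)) := by
          have e4 : (4 : ℕ) = 2 ^ 2 := by norm_num
          rw [e4, ← pow_mul, mul_pow, mul_pow, mul_pow, ← pow_mul, ← pow_mul, ← pow_mul, ← pow_mul]
          ring_nf
        rw [e1]
        calc 4 ^ e * (n + 1) ^ (2 * e) * 2 ^ (m * (2 * e))
            ≤ 4 ^ e * (C3 * 2 ^ (n + 1)) * 2 ^ n :=
              Nat.mul_le_mul (Nat.mul_le_mul_left _ (hC3 (n + 1)))
                (Nat.pow_le_pow_right (by norm_num) h5)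
          _ = (4 ^ e * (2 * C3)) * (2 ^ n) ^ 2 := by ring
          _ ≤ K ^ 2 * (2 ^ n) ^ 2 := by
              apply Nat.mul_le_mul_right
              have h7 : 4 ^ e * (2 * C3) ≤ K := by omega
              have h8 : 1 ≤ K := by omega
              calc 4 ^ e * (2 * C3) ≤ K * 1 := by rw [mul_one]; exact h7
                _ ≤ K * K := Nat.mul_le_mul_left K h8
                _ = K ^ 2 := (sq K).symm
          _ = (K * 2 ^ n) ^ 2 := by ring
      exact (Nat.pow_le_pow_iff_left (by norm_num)).mp h6
    calc P.time.eval (padW m x).length ≤ C * (padW m x).length ^ e := hCe _ (by omega)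
      _ ≤ C * (2 ^ m * (2 * (n + 1))) ^ e :=
          Nat.mul_le_mul_left _ (Nat.pow_le_pow_left h3 e)
      _ = C * ((2 * (n + 1)) ^ e * (2 ^ m) ^ e) := by rw [mul_pow]; ring
      _ ≤ C * (K * 2 ^ n) := Nat.mul_le_mul_left _ h4
      _ = C * K * 2 ^ n := by ring
  have h5 : (C1 * C2 * 2 + 100 + C * K) * 2 ^ n
      = C1 * C2 * 2 * 2 ^ n + 100 * 2 ^ n + C * K * 2 ^ n := by ring
  show _ ≤ (C1 * C2 * 2 + 100 + C * K) * 2 ^ n
  rw [h5]
  generalize C1 * C2 * 2 * 2 ^ n = A at h1 ⊢
  generalize C * K * 2 ^ n = B at h2 ⊢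
  have hxn : x.length = n := hn.symm
  rw [hxn]
  omega

end Pool.Agent.LocE
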